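
/-
CHUNK H25R-Mean (mean square of an exponential sum with non-negative coefficients and consistent phases).

PROOF. Let g(t) = sum_k B_k e(la_k t - th_k), e(x) = exp(2 pi i x). Mean over [T, T+X] of |g|^2 = sum_{k,l} B_k B_l e(-(th_k - th_l)) *
mean of e((la_k - la_l) t). For la_k <> la_l the mean is <= 1/(pi |la_k - la_l| X) -> 0; for la_k = la_l it is 1 and
e(-(th_k - th_l)) = 1 by h. So the limit is the sum over pairs with equal la of B_k B_l >= sum B_k^2; and it is <= C.
(Lib/Emb/Bohr.lean has bohr_mean_exp, the mean of an exponential, to imitate.)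
-/
import Mathlib

namespace Pool.Agent.Lib.H25R

open Complex

private theorem mean_term (B la th t : ℝ) :
    (B : ℂ) * exp (2 * Real.pi * I * ((la * t - th : ℝ) : ℂ)) =
      ((B * Real.cos (2 * Real.pi * (la * t - th)) : ℝ) : ℂ) +
        ((B * Real.sin (2 * Real.pi * (la * t - th)) : ℝ) : ℂ) * I := by
  have h1 : (2 * Real.pi * I * ((la * t - th : ℝ) : ℂ)) =
      ((2 * Real.pi * (la * t - th) : ℝ) : ℂ) * I := by
    push_cast; ring
  rw [h1, exp_mul_I, ← ofReal_cos, ← ofReal_sin]
  push_cast
  ring

private theorem mean_norm {κ : Type} [Fintype κ] (B la th : κ → ℝ) (t : ℝ) :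
    ‖∑ k, (B k : ℂ) * exp (2 * Real.pi * I * ((la k * t - th k : ℝ) : ℂ))‖ ^ 2 =
      ∑ k, ∑ l, B k * B l * Real.cos (2 * Real.pi * ((la k - la l) * t - (th k - th l))) := by
  rw [← Complex.normSq_eq_norm_sq]
  have h1 : ∑ k, (B k : ℂ) * exp (2 * Real.pi * I * ((la k * t - th k : ℝ) : ℂ)) =
      ((∑ k, B k * Real.cos (2 * Real.pi * (la k * t - th k)) : ℝ) : ℂ) +
        ((∑ k, B k * Real.sin (2 * Real.pi * (la k * t - th k)) : ℝ) : ℂ) * I := by
    rw [Complex.ofReal_sum, Complex.ofReal_sum, Finset.sum_mul, ← Finset.sum_add_distrib]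
    exact Finset.sum_congr rfl fun k _ => mean_term _ _ _ _
  rw [h1, Complex.normSq_add_mul_I, sq, sq, Finset.sum_mul_sum, Finset.sum_mul_sum,
    ← Finset.sum_add_distrib]
  refine Finset.sum_congr rfl fun k _ => ?_
  rw [← Finset.sum_add_distrib]
  refine Finset.sum_congr rfl fun l _ => ?_
  have h2 : 2 * Real.pi * ((la k - la l) * t - (th k - th l)) =
      2 * Real.pi * (la k * t - th k) - 2 * Real.pi * (la l * t - th l) := by ring
  rw [h2, Real.cos_sub]
  ring

private theorem mean_int (α β T X : ℝ) (hα : α ≠ 0) :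
    -(2 / |α|) ≤ ∫ t in T..(T + X), Real.cos (α * t - β) := by
  have h1 : ∫ t in T..(T + X), Real.cos (α * t - β) =
      α⁻¹ * (Real.sin (α * (T + X) - β) - Real.sin (α * T - β)) := by
    rw [intervalIntegral.integral_comp_mul_sub (fun x => Real.cos x) hα β, integral_cos]
    simp [smul_eq_mul]
  rw [h1]
  have h2 : |α⁻¹ * (Real.sin (α * (T + X) - β) - Real.sin (α * T - β))| ≤ 2 / |α| := by
    rw [abs_mul, abs_inv, div_eq_mul_inv, mul_comm]
    refine mul_le_mul_of_nonneg_right ?_ (inv_nonneg.2 (abs_nonneg _))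
    have h3 := Real.abs_sin_le_one (α * (T + X) - β)
    have h4 := Real.abs_sin_le_one (α * T - β)
    rw [abs_le] at h3 h4 ⊢
    constructor <;> linarith [h3.1, h3.2, h4.1, h4.2]
  exact (abs_le.1 h2).1

theorem mean_sq {κ : Type} [Fintype κ] (B la th : κ → ℝ) (hB : ∀ k, 0 ≤ B k)
    (h : ∀ k l, la k = la l → ∃ m : ℤ, th k - th l = m) (T C : ℝ)
    (hC : ∀ t : ℝ, T ≤ t → ‖∑ k, (B k : ℂ) * exp (2 * Real.pi * I * ((la k * t - th k : ℝ) : ℂ))‖ ^ 2 ≤ C) :
    ∑ k, B k ^ 2 ≤ C := by
  classical
  set K : ℝ := ∑ k, ∑ l, B k * B l * (2 / |2 * Real.pi * (la k - la l)|) with hK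
  -- lower bound of the integral
  have hlow : ∀ X : ℝ, 0 < X → X * ∑ k, B k ^ 2 - K ≤ C * X := by
    intro X hX
    have hint : ∫ t in T..(T + X),
        ∑ k, ∑ l, B k * B l * Real.cos (2 * Real.pi * ((la k - la l) * t - (th k - th l))) ≤ C * X := by
      have h1 : ∫ t in T..(T + X), (C : ℝ) = C * X := by
        rw [intervalIntegral.integral_const]; simp; ring
      rw [← h1]
      refine intervalIntegral.integral_mono_on (by linarith) ?_ ?_ ?_
      · apply Continuous.intervalIntegrable
        fun_prop
      · exact continuous_const.intervalIntegrable _ _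
      · intro t ht
        rw [← mean_norm]
        exact hC t ht.1
    have hsum : ∫ t in T..(T + X),
        ∑ k, ∑ l, B k * B l * Real.cos (2 * Real.pi * ((la k - la l) * t - (th k - th l))) =
        ∑ k, ∑ l, B k * B l *
          ∫ t in T..(T + X), Real.cos (2 * Real.pi * ((la k - la l) * t - (th k - th l))) := by
      rw [intervalIntegral.integral_finsetSum]
      · refine Finset.sum_congr rfl fun k _ => ?_
        rw [intervalIntegral.integral_finsetSum]
        · refine Finset.sum_congr rfl fun l _ => ?_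
          rw [intervalIntegral.integral_const_mul]
        · intro l _
          apply Continuous.intervalIntegrable
          fun_prop
      · intro k _
        apply Continuous.intervalIntegrable
        fun_prop
    have hterm : ∀ k l, B k * B l * (if la k = la l then X else -(2 / |2 * Real.pi * (la k - la l)|)) ≤
        B k * B l *
          ∫ t in T..(T + X), Real.cos (2 * Real.pi * ((la k - la l) * t - (th k - th l))) := by
      intro k l
      refine mul_le_mul_of_nonneg_left ?_ (mul_nonneg (hB k) (hB l))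
      split_ifs with hkl
      · obtain ⟨m, hm⟩ := h k l hkl
        have h2 : ∀ t : ℝ, Real.cos (2 * Real.pi * ((la k - la l) * t - (th k - th l))) = 1 := by
          intro t
          have h3 : 2 * Real.pi * ((la k - la l) * t - (th k - th l)) = ((-m : ℤ) : ℝ) * (2 * Real.pi) := by
            rw [hkl, hm]; push_cast; ring
          rw [h3, Real.cos_int_mul_two_pi]
        simp_rw [h2]
        rw [intervalIntegral.integral_const]
        simp
      · have h4 : ∀ t : ℝ, 2 * Real.pi * ((la k - la l) * t - (th k - th l)) =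
            (2 * Real.pi * (la k - la l)) * t - 2 * Real.pi * (th k - th l) := by intro t; ring
        simp_rw [h4]
        refine mean_int _ _ _ _ ?_
        have h5 : la k - la l ≠ 0 := sub_ne_zero.2 hkl
        have h6 := Real.pi_ne_zero
        positivity
    have hdiag : X * ∑ k, B k ^ 2 - K ≤
        ∑ k, ∑ l, B k * B l * (if la k = la l then X else -(2 / |2 * Real.pi * (la k - la l)|)) := by
      rw [hK, Finset.mul_sum, ← Finset.sum_sub_distrib]
      refine Finset.sum_le_sum fun k _ => ?_
      have h7 : X * B k ^ 2 = ∑ l, if l = k then X * (B k * B l) else 0 := by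
        rw [Finset.sum_ite_eq' Finset.univ k (fun l => X * (B k * B l)), if_pos (Finset.mem_univ k)]
        ring
      rw [h7, ← Finset.sum_sub_distrib]
      refine Finset.sum_le_sum fun l _ => ?_
      have h8 : 0 ≤ B k * B l := mul_nonneg (hB k) (hB l)
      have h9 : 0 ≤ 2 / |2 * Real.pi * (la k - la l)| := by positivity
      have h10 : 0 ≤ B k * B l * (2 / |2 * Real.pi * (la k - la l)|) := mul_nonneg h8 h9
      have h11 : 0 ≤ B k * B l * X := mul_nonneg h8 hX.le
      by_cases hlk : l = k
      · subst hlk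
        simp only [if_true]
        linarith
      · by_cases hla : la k = la l
        · simp only [if_neg hlk, if_pos hla]
          linarith
        · simp only [if_neg hlk, if_neg hla]
          linarith
    calc X * ∑ k, B k ^ 2 - K ≤ _ := hdiag
      _ ≤ _ := Finset.sum_le_sum fun k _ => Finset.sum_le_sum fun l _ => hterm k l
      _ = _ := hsum.symm
      _ ≤ C * X := hint
  by_contra hcon
  push Not at hcon
  obtain ⟨D, hD⟩ : ∃ D : ℝ, D = ∑ k, B k ^ 2 - C := ⟨_, rfl⟩
  have hpos : 0 < D := by linarith
  have hS : ∑ k, B k ^ 2 = D + C := by linarith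
  have hKn : 0 ≤ K := by
    rw [hK]
    refine Finset.sum_nonneg fun k _ => Finset.sum_nonneg fun l _ => ?_
    exact mul_nonneg (mul_nonneg (hB k) (hB l)) (by positivity)
  have h12 := hlow ((K + 1) / D) (by positivity)
  have h13 : (K + 1) / D * D = K + 1 := div_mul_cancel₀ _ hpos.ne'
  rw [hS] at h12
  have h14 : (K + 1) / D * (D + C) - K = (K + 1) / D * D + C * ((K + 1) / D) - K := by ring
  rw [h14, h13] at h12
  linarith

end Pool.Agent.Lib.H25R
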