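/-
CHUNK H25R-Kron (Kronecker's theorem, continuous time, general form).

PROOF from mean_sq. Suppose that for all t >= T some i has |t al_i - be_i - m| >= eps for every integer m (eps <= 1/2 without loss).
Then |1 + e(t al_i - be_i)|^2 = 2 + 2 cos (2 pi (t al_i - be_i)) <= 4 rho with rho = (1 + cos (2 pi eps))/2 < 1, the other factors
are <= 4. So for every N: |prod_i (1 + e(t al_i - be_i))^N|^2 <= 4^(N n) rho^N, n = card iota, for all t >= T.
Expand (Finset.prod_univ_sum, add_pow): prod_i (1 + e(x_i))^N = sum over k : iota -> Fin (N+1) of prod_i C(N, k_i) e(k_i x_i), that is B_k = prod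
C(N,k_i), la_k = sum k_i al_i, th_k = sum k_i be_i; the hypothesis H gives h of mean_sq (difference of two k's). So
sum_k B_k^2 <= 4^(N n) rho^N; and sum_k B_k^2 = (sum_j C(N,j)^2)^n >= (4^N/(N+1))^n (Cauchy-Schwarz, or central binomial). So
1 <= (N+1)^n rho^N for all N: false for large N (tendsto_pow_const_mul_const_pow_of_abs_lt_one).
-/
import Pool.Agent.Lib.H25R.Mean

namespace Pool.Agent.Lib.H25R

open Finset in
private theorem kron_binom (N : ℕ) : (4 : ℝ) ^ N ≤ (N + 1) * ∑ j : Fin (N + 1), ((N.choose j : ℕ) : ℝ) ^ 2 := by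
  have h1 : (∑ j : Fin (N + 1), ((N.choose j : ℕ) : ℝ)) = 2 ^ N := by
    rw [Fin.sum_univ_eq_sum_range (fun j => ((N.choose j : ℕ) : ℝ)) (N + 1)]
    have := Nat.sum_range_choose N
    exact_mod_cast this
  have h2 := sq_sum_le_card_mul_sum_sq (s := (Finset.univ : Finset (Fin (N + 1))))
    (f := fun j => ((N.choose j : ℕ) : ℝ))
  rw [h1, Finset.card_univ, Fintype.card_fin] at h2
  calc (4 : ℝ) ^ N = (2 ^ N) ^ 2 := by rw [← pow_mul, mul_comm, pow_mul]; norm_num
    _ ≤ _ := h2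
    _ = _ := by push_cast; ring

private theorem kron_normsq (x : ℝ) :
    ‖(1 : ℂ) + Complex.exp (2 * Real.pi * Complex.I * ((x : ℝ) : ℂ))‖ ^ 2 = 2 + 2 * Real.cos (2 * Real.pi * x) := by
  have h : Complex.exp (2 * Real.pi * Complex.I * ((x : ℝ) : ℂ))
      = ((Real.cos (2 * Real.pi * x) : ℝ) : ℂ) + ((Real.sin (2 * Real.pi * x) : ℝ) : ℂ) * Complex.I := by
    rw [Complex.ofReal_cos, Complex.ofReal_sin, ← Complex.exp_mul_I]
    congr 1
    push_cast
    ring
  rw [h, ← Complex.normSq_eq_norm_sq]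
  have h2 : (1 : ℂ) + (((Real.cos (2 * Real.pi * x) : ℝ) : ℂ) + ((Real.sin (2 * Real.pi * x) : ℝ) : ℂ) * Complex.I)
      = ((1 + Real.cos (2 * Real.pi * x) : ℝ) : ℂ) + ((Real.sin (2 * Real.pi * x) : ℝ) : ℂ) * Complex.I := by
    push_cast
    ring
  rw [h2, Complex.normSq_add_mul_I]
  nlinarith [Real.sin_sq_add_cos_sq (2 * Real.pi * x)]

private theorem kron_cos (x ε : ℝ) (hε : 0 < ε) (hx : ∀ m : ℤ, ε ≤ |x - m|) :
    Real.cos (2 * Real.pi * x) ≤ Real.cos (2 * Real.pi * ε) ∧ ε ≤ 1 / 2 := by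
  have h1 : |x - round x| ≤ 1 / 2 := abs_sub_round x
  have h2 := hx (round x)
  refine ⟨?_, h2.trans h1⟩
  have h3 : Real.cos (2 * Real.pi * x) = Real.cos (2 * Real.pi * |x - round x|) := by
    have h4 : 2 * Real.pi * |x - round x| = |2 * Real.pi * (x - round x)| := by
      rw [abs_mul, abs_of_pos (by positivity : (0 : ℝ) < 2 * Real.pi)]
    rw [h4, Real.cos_abs, mul_sub, mul_comm (2 * Real.pi) ((round x : ℤ) : ℝ), Real.cos_sub_int_mul_two_pi]
  rw [h3]
  apply Real.cos_le_cos_of_nonneg_of_le_pi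
  · positivity
  · nlinarith [Real.pi_pos]
  · nlinarith [Real.pi_pos]

private theorem kron_expand {ι : Type} [Fintype ι] [DecidableEq ι] (N : ℕ) (x : ι → ℝ) :
    ∏ i, ((1 : ℂ) + Complex.exp (2 * Real.pi * Complex.I * ((x i : ℝ) : ℂ))) ^ N
      = ∑ k : ι → Fin (N + 1), ((∏ i, ((N.choose (k i) : ℕ) : ℝ) : ℝ) : ℂ)
        * Complex.exp (2 * Real.pi * Complex.I * ((∑ i, ((k i : ℕ) : ℝ) * x i : ℝ) : ℂ)) := by
  have h1 : ∀ i, ((1 : ℂ) + Complex.exp (2 * Real.pi * Complex.I * ((x i : ℝ) : ℂ))) ^ N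
      = ∑ j : Fin (N + 1), (((N.choose j : ℕ) : ℝ) : ℂ)
        * Complex.exp (2 * Real.pi * Complex.I * ((((j : ℕ) : ℝ) * x i : ℝ) : ℂ)) := by
    intro i
    rw [add_comm, add_pow, Fin.sum_univ_eq_sum_range (fun j => (((N.choose j : ℕ) : ℝ) : ℂ)
        * Complex.exp (2 * Real.pi * Complex.I * ((((j : ℕ) : ℝ) * x i : ℝ) : ℂ))) (N + 1)]
    refine Finset.sum_congr rfl fun j _ => ?_
    rw [one_pow, mul_one, ← Complex.exp_nat_mul, mul_comm]
    push_cast
    congr 2
    ring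
  rw [Finset.prod_congr rfl fun i _ => h1 i, Finset.prod_univ_sum, Fintype.piFinset_univ]
  refine Finset.sum_congr rfl fun k _ => ?_
  rw [Finset.prod_mul_distrib, ← Complex.exp_sum]
  push_cast
  rw [Finset.mul_sum]

private theorem kron_sumsq {ι : Type} [Fintype ι] [DecidableEq ι] (N : ℕ) :
    ∑ k : ι → Fin (N + 1), (∏ i, ((N.choose (k i) : ℕ) : ℝ)) ^ 2
      = (∑ j : Fin (N + 1), ((N.choose j : ℕ) : ℝ) ^ 2) ^ Fintype.card ι := by
  have h1 : (∏ _i : ι, ∑ j : Fin (N + 1), ((N.choose j : ℕ) : ℝ) ^ 2)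
      = (∑ j : Fin (N + 1), ((N.choose j : ℕ) : ℝ) ^ 2) ^ Fintype.card ι := by
    rw [Finset.prod_const, Finset.card_univ]
  rw [← h1, Finset.prod_univ_sum, Fintype.piFinset_univ]
  refine Finset.sum_congr rfl fun k _ => ?_
  rw [Finset.prod_pow]

theorem kronecker {ι : Type} [Fintype ι] (al be : ι → ℝ)
    (H : ∀ n : ι → ℤ, ∑ i, (n i : ℝ) * al i = 0 → ∃ m : ℤ, ∑ i, (n i : ℝ) * be i = m) (ε : ℝ) (hε : 0 < ε) (T : ℝ) :
    ∃ t : ℝ, T ≤ t ∧ ∀ i, ∃ m : ℤ, |t * al i - be i - m| < ε := by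
  classical
  by_contra hcon
  push Not at hcon
  obtain ⟨i0, hi0⟩ := hcon T le_rfl
  have hε2 : ε ≤ 1 / 2 := (kron_cos _ ε hε hi0).2
  set ρ : ℝ := (1 + Real.cos (2 * Real.pi * ε)) / 2 with hρ
  have hρ0 : 0 ≤ ρ := by
    have := Real.neg_one_le_cos (2 * Real.pi * ε)
    rw [hρ]
    linarith
  have hρ1 : ρ < 1 := by
    have h1 : Real.cos (2 * Real.pi * ε) < Real.cos 0 := by
      apply Real.cos_lt_cos_of_nonneg_of_le_pi le_rfl
      · nlinarith [Real.pi_pos]
      · positivity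
    rw [Real.cos_zero] at h1
    rw [hρ]
    linarith
  set n := Fintype.card ι with hn
  -- the bound for every N
  have key : ∀ N : ℕ, 1 ≤ ((N : ℝ) + 1) ^ n * ρ ^ N := by
    intro N
    have hmean := mean_sq (κ := ι → Fin (N + 1)) (fun k => ∏ i, ((N.choose (k i) : ℕ) : ℝ))
      (fun k => ∑ i, ((k i : ℕ) : ℝ) * al i) (fun k => ∑ i, ((k i : ℕ) : ℝ) * be i)
      (fun k => Finset.prod_nonneg fun i _ => by positivity)
      (by
        intro k l hkl
        obtain ⟨m, hm⟩ := H (fun i => ((k i : ℕ) : ℤ) - ((l i : ℕ) : ℤ)) (by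
          have : ∑ i, (((((k i : ℕ) : ℤ) - ((l i : ℕ) : ℤ) : ℤ)) : ℝ) * al i
              = (∑ i, ((k i : ℕ) : ℝ) * al i) - ∑ i, ((l i : ℕ) : ℝ) * al i := by
            rw [← Finset.sum_sub_distrib]
            refine Finset.sum_congr rfl fun i _ => ?_
            push_cast
            ring
          rw [this]
          exact sub_eq_zero.2 hkl)
        refine ⟨m, ?_⟩
        rw [← hm, ← Finset.sum_sub_distrib]
        refine Finset.sum_congr rfl fun i _ => ?_
        push_cast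
        ring)
      T ((4 ^ n * ρ) ^ N)
      (by
        intro t ht
        obtain ⟨j, hj⟩ := hcon t ht
        have hexp : ∑ k : ι → Fin (N + 1), (((∏ i, ((N.choose (k i) : ℕ) : ℝ)) : ℝ) : ℂ)
            * Complex.exp (2 * Real.pi * Complex.I *
              (((∑ i, ((k i : ℕ) : ℝ) * al i) * t - ∑ i, ((k i : ℕ) : ℝ) * be i : ℝ) : ℂ))
            = ∏ i, ((1 : ℂ) + Complex.exp (2 * Real.pi * Complex.I * ((t * al i - be i : ℝ) : ℂ))) ^ N := by
          rw [kron_expand]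
          refine Finset.sum_congr rfl fun k _ => ?_
          have : (∑ i, ((k i : ℕ) : ℝ) * al i) * t - ∑ i, ((k i : ℕ) : ℝ) * be i
              = ∑ i, ((k i : ℕ) : ℝ) * (t * al i - be i) := by
            rw [Finset.sum_mul, ← Finset.sum_sub_distrib]
            refine Finset.sum_congr rfl fun i _ => ?_
            ring
          rw [this]
        rw [hexp, Finset.prod_pow, norm_pow, ← pow_mul, mul_comm N 2, pow_mul]
        apply pow_le_pow_left₀ (by positivity)
        rw [norm_prod, ← Finset.prod_pow]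
        have hle4 : ∀ i, ‖(1 : ℂ) + Complex.exp (2 * Real.pi * Complex.I * ((t * al i - be i : ℝ) : ℂ))‖ ^ 2 ≤ 4 := by
          intro i
          rw [kron_normsq]
          linarith [Real.cos_le_one (2 * Real.pi * (t * al i - be i))]
        have hlej : ‖(1 : ℂ) + Complex.exp (2 * Real.pi * Complex.I * ((t * al j - be j : ℝ) : ℂ))‖ ^ 2 ≤ 4 * ρ := by
          rw [kron_normsq, hρ]
          linarith [(kron_cos _ ε hε hj).1]
        have hn1 : n = (n - 1) + 1 := by
          have : 0 < n := Fintype.card_pos_iff.2 ⟨j⟩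
          omega
        rw [← Finset.mul_prod_erase Finset.univ _ (Finset.mem_univ j)]
        have hcard : (Finset.univ.erase j).card = n - 1 := by
          rw [Finset.card_erase_of_mem (Finset.mem_univ j), Finset.card_univ]
        have h4 : ∏ i ∈ Finset.univ.erase j,
            ‖(1 : ℂ) + Complex.exp (2 * Real.pi * Complex.I * ((t * al i - be i : ℝ) : ℂ))‖ ^ 2 ≤ 4 ^ (n - 1) := by
          rw [← hcard, ← Finset.prod_const]
          exact Finset.prod_le_prod (fun i _ => by positivity) fun i _ => hle4 i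
        calc _ ≤ (4 * ρ) * 4 ^ (n - 1) := by
              apply mul_le_mul hlej h4
              · exact Finset.prod_nonneg fun i _ => by positivity
              · positivity
          _ = 4 ^ n * ρ := by
              rw [hn1, pow_succ]
              simp only [Nat.add_sub_cancel]
              ring)
    rw [kron_sumsq] at hmean
    have hb := kron_binom N
    set S := ∑ j : Fin (N + 1), ((N.choose j : ℕ) : ℝ) ^ 2 with hS
    have h5 : ((4 : ℝ) ^ N) ^ n ≤ ((N : ℝ) + 1) ^ n * (4 ^ n * ρ) ^ N := by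
      calc ((4 : ℝ) ^ N) ^ n ≤ (((N : ℝ) + 1) * S) ^ n := pow_le_pow_left₀ (by positivity) hb n
        _ = ((N : ℝ) + 1) ^ n * S ^ n := mul_pow _ _ _
        _ ≤ _ := mul_le_mul_of_nonneg_left hmean (by positivity)
    have h6 : ((4 : ℝ) ^ N) ^ n = (4 ^ n) ^ N := by
      rw [← pow_mul, ← pow_mul, mul_comm]
    rw [mul_pow, h6] at h5
    have h7 : (0 : ℝ) < (4 ^ n) ^ N := by positivity
    have h8 : (4 ^ n) ^ N * 1 ≤ (4 ^ n) ^ N * (((N : ℝ) + 1) ^ n * ρ ^ N) := by
      calc _ = (4 ^ n) ^ N := mul_one _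
        _ ≤ _ := h5
        _ = _ := by ring
    exact le_of_mul_le_mul_left h8 h7
  have hlim := tendsto_pow_const_mul_const_pow_of_abs_lt_one n (r := ρ) (by rw [abs_of_nonneg hρ0]; exact hρ1)
  have hev : ∀ᶠ N : ℕ in Filter.atTop, ((N : ℝ)) ^ n * ρ ^ N < 1 / 2 ^ n :=
    hlim.eventually (gt_mem_nhds (by positivity))
  obtain ⟨N, hN, hN1⟩ := (hev.and (Filter.eventually_ge_atTop 1)).exists
  have hk := key N
  have hN1' : (1 : ℝ) ≤ N := by exact_mod_cast hN1
  have h9 : ((N : ℝ) + 1) ^ n ≤ 2 ^ n * (N : ℝ) ^ n := by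
    rw [← mul_pow]
    apply pow_le_pow_left₀ (by positivity)
    linarith
  have h10 : (1 : ℝ) ≤ 2 ^ n * ((N : ℝ) ^ n * ρ ^ N) := by
    calc (1 : ℝ) ≤ ((N : ℝ) + 1) ^ n * ρ ^ N := hk
      _ ≤ (2 ^ n * (N : ℝ) ^ n) * ρ ^ N := mul_le_mul_of_nonneg_right h9 (by positivity)
      _ = _ := by ring
  have h11 : (2 : ℝ) ^ n * ((N : ℝ) ^ n * ρ ^ N) < 2 ^ n * (1 / 2 ^ n) :=
    mul_lt_mul_of_pos_left hN (by positivity)
  rw [mul_one_div_cancel (by positivity)] at h11
  linarith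

end Pool.Agent.Lib.H25R
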