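/-
Translation surfaces tiled by rectangles of arbitrary sizes (MP_273810_co, Straus).

Finite set S of cells, permutations R (neighbour to the right) and U (neighbour above), widths w and heights h
with h (R x) = h x, w (U x) = w x.  A point is (x, a, b) with x a cell and 0 <= a <= w x, 0 <= b <= h x.
`Line M s x a b y c d`: the straight segment of slope s = dx/dy > 0 from (x,a,b) to (y,c,d) which passes only
from cell to cell through the relative interiors of the sides (never through a corner).  The end point may lie on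
the right or on the upper side of the cell y (corner allowed); it arrives through the open cell y.
-/
import Mathlib

namespace Pool.Agent.Lib.H25R

open Finset

structure Surf (S : Type) where
  R : Equiv.Perm S
  U : Equiv.Perm S
  w : S → ℝ
  h : S → ℝ
  w_pos : ∀ x, 0 < w x
  h_pos : ∀ x, 0 < h x
  hR : ∀ x, h (R x) = h x
  wU : ∀ x, w (U x) = w x

variable {S : Type}

/-- exchange the two coordinates -/
def Surf.swap (M : Surf S) : Surf S where
  R := M.U
  U := M.R
  w := M.h
  h := M.w
  w_pos := M.h_pos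
  h_pos := M.w_pos
  hR := M.wU
  wU := M.hR

/-- total width of the `k` cells `x, R x, ..., R^(k-1) x` -/
noncomputable def Surf.sm (M : Surf S) (x : S) (k : ℕ) : ℝ := ∑ i ∈ range k, M.w ((M.R ^ i) x)

/-- a period of the horizontal line through the cell `x` (a multiple of the circumference) -/
noncomputable def Surf.W (M : Surf S) (x : S) : ℝ := M.sm x (orderOf M.R)

/-- straight segments of slope `s = dx/dy`, one cell at a time -/
inductive Line (M : Surf S) (s : ℝ) : S → ℝ → ℝ → S → ℝ → ℝ → Prop
  | here (x : S) (a b c d : ℝ) (hd : b < d) (hc : c = a + s * (d - b)) (hcw : c ≤ M.w x) (hdh : d ≤ M.h x) :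
      Line M s x a b x c d
  | right (x : S) (a b : ℝ) (y : S) (c d b1 : ℝ) (ha : a < M.w x) (hb1 : s * (b1 - b) = M.w x - a)
      (hh : b1 < M.h x) (hl : Line M s (M.R x) 0 b1 y c d) : Line M s x a b y c d
  | up (x : S) (a b : ℝ) (y : S) (c d a1 : ℝ) (hb : b < M.h x) (ha1 : a1 = a + s * (M.h x - b))
      (hw : a1 < M.w x) (hl : Line M s (M.U x) a1 0 y c d) : Line M s x a b y c d

/-- the same, one row at a time: in every row `k` steps to the right, then up -/
inductive Row (M : Surf S) (s : ℝ) : S → ℝ → ℝ → S → ℝ → ℝ → Prop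
  | last (x : S) (a b : ℝ) (k : ℕ) (c d : ℝ) (hd : b < d) (hdh : d ≤ M.h x)
      (hc : a + s * (d - b) = M.sm x k + c) (hc0 : 0 < c) (hcw : c ≤ M.w ((M.R ^ k) x)) :
      Row M s x a b ((M.R ^ k) x) c d
  | up (x : S) (a b : ℝ) (k : ℕ) (a1 : ℝ) (y : S) (c d : ℝ) (hb : b < M.h x)
      (ha1 : a + s * (M.h x - b) = M.sm x k + a1) (h0 : 0 < a1) (hw : a1 < M.w ((M.R ^ k) x))
      (hl : Row M s (M.U ((M.R ^ k) x)) a1 0 y c d) : Row M s x a b y c d

/-- (x,a,b) sees (y,c,d) in some direction of positive slope -/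
def Lit (M : Surf S) (x : S) (a b : ℝ) (y : S) (c d : ℝ) : Prop := ∃ s : ℝ, 0 < s ∧ Line M s x a b y c d

/-- `b` (a height in a row with period `W`) is generic: b / W is not a rational combination of the h / W -/
def Gen (M : Surf S) (x : S) (b : ℝ) [Fintype S] : Prop :=
  ∀ (n : S → ℤ) (k : ℤ), (∑ z, (n z : ℝ) * (M.h z / M.W z)) + k * (b / M.W x) = 0 → k = 0

/-- the two heights `b` (row of x) and `d` (row of y) are independent -/
def Indep2 (M : Surf S) (x : S) (b : ℝ) (y : S) (d : ℝ) [Fintype S] : Prop :=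
  ∀ (n : S → ℤ) (k l : ℤ), (∑ z, (n z : ℝ) * (M.h z / M.W z)) + k * (b / M.W x) + l * (d / M.W y) = 0 →
    k = 0 ∧ l = 0

/-- transitivity in the form in which it is used -/
def Trans (M : Surf S) : Prop :=
  ∀ T : Set S, T.Nonempty → (∀ x, M.R x ∈ T → x ∈ T) → (∀ x, M.U x ∈ T → x ∈ T) → ∀ x, x ∈ T

end Pool.Agent.Lib.H25R
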