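/-
CHUNK H25R-Sums (the sums sm and the period W). Finite S: N = orderOf R > 0, R^N = 1.
-/
import Pool.Agent.Lib.H25R.Defs

namespace Pool.Agent.Lib.H25R

open Finset

variable {S : Type}

private theorem rpow_add (M : Surf S) (x : S) (k i : ℕ) : (M.R ^ (k + i)) x = (M.R ^ i) ((M.R ^ k) x) := by
  rw [Nat.add_comm, pow_add, Equiv.Perm.mul_apply]

theorem sm_add (M : Surf S) (x : S) (k l : ℕ) : M.sm x (k + l) = M.sm x k + M.sm ((M.R ^ k) x) l := by
  simp only [Surf.sm]
  rw [Finset.sum_range_add]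
  congr 1
  exact Finset.sum_congr rfl (fun i _ => by rw [rpow_add])

theorem h_pow (M : Surf S) (x : S) (k : ℕ) : M.h ((M.R ^ k) x) = M.h x := by
  induction k with
  | zero => simp
  | succ n ih => rw [pow_succ', Equiv.Perm.mul_apply, M.hR, ih]

theorem sm_nonneg (M : Surf S) (x : S) (k : ℕ) : 0 ≤ M.sm x k :=
  Finset.sum_nonneg (fun _ _ => (M.w_pos _).le)

private theorem orderOf_pos' (M : Surf S) [Finite S] : 0 < orderOf M.R :=
  orderOf_pos M.R

private theorem sm_one (M : Surf S) (x : S) : M.sm x 1 = M.w x := by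
  simp [Surf.sm]

theorem W_pow (M : Surf S) [Finite S] (x : S) (k : ℕ) : M.W ((M.R ^ k) x) = M.W x := by
  have h1 := sm_add M x k (orderOf M.R)
  have h2 := sm_add M x (orderOf M.R) k
  rw [pow_orderOf_eq_one, Equiv.Perm.one_apply] at h2
  rw [Nat.add_comm, h1] at h2
  unfold Surf.W
  linarith

theorem W_R (M : Surf S) [Finite S] (x : S) : M.W (M.R x) = M.W x := by
  have := W_pow M x 1
  rwa [pow_one] at this

theorem w_le_W (M : Surf S) [Finite S] (x : S) : M.w x ≤ M.W x := by
  obtain ⟨n, hn⟩ := Nat.exists_eq_succ_of_ne_zero (orderOf_pos' M).ne'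
  unfold Surf.W
  rw [hn, Nat.succ_eq_add_one, Nat.add_comm, sm_add, sm_one]
  linarith [sm_nonneg M ((M.R ^ 1) x) n]

theorem W_pos (M : Surf S) [Finite S] (x : S) : 0 < M.W x :=
  lt_of_lt_of_le (M.w_pos x) (w_le_W M x)

theorem pow_mul_order (M : Surf S) (x : S) (k m : ℕ) : (M.R ^ (k + m * orderOf M.R)) x = (M.R ^ k) x := by
  rw [pow_add, Nat.mul_comm, pow_mul, pow_orderOf_eq_one, one_pow, mul_one]

theorem sm_mul (M : Surf S) [Finite S] (x : S) (k m : ℕ) :
    M.sm x (k + m * orderOf M.R) = M.sm x k + m * M.W x := by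
  induction m with
  | zero => simp
  | succ n ih =>
    have e : k + (n + 1) * orderOf M.R = (k + n * orderOf M.R) + orderOf M.R := by ring
    rw [e, sm_add, ih, pow_mul_order]
    have := W_pow M x k
    unfold Surf.W at this ⊢
    rw [this]
    push_cast
    ring

/-- mirror image: if `mh` conjugates R to its inverse and keeps the widths then the periods are the same -/
theorem W_mirror (M : Surf S) [Finite S] (mh : S → S) (h1 : ∀ x, M.R (mh (M.R x)) = mh x) (h2 : ∀ x, M.w (mh x) = M.w x)
    (x : S) : M.W (mh x) = M.W x := by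
  have key : ∀ (k : ℕ) (y : S), (M.R ^ k) (mh ((M.R ^ k) y)) = mh y := by
    intro k
    induction k with
    | zero => intro y; simp
    | succ n ih =>
      intro y
      have e1 : ∀ z : S, (M.R ^ (n + 1)) z = (M.R ^ n) (M.R z) := fun z => by
        rw [pow_succ, Equiv.Perm.mul_apply]
      have e2 : ∀ z : S, (M.R ^ (n + 1)) z = M.R ((M.R ^ n) z) := fun z => by
        rw [pow_succ', Equiv.Perm.mul_apply]
      rw [e2 y, e1, h1, ih]
  have hN : ∀ y : S, (M.R ^ orderOf M.R) y = y := by
    intro y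
    rw [pow_orderOf_eq_one, Equiv.Perm.one_apply]
  unfold Surf.W Surf.sm
  -- reflect the first sum by `i ↦ N - 1 - i`, shifted by one
  have hlhs : ∑ i ∈ range (orderOf M.R), M.w ((M.R ^ i) (mh x))
      = ∑ i ∈ range (orderOf M.R), M.w ((M.R ^ (orderOf M.R - 1 - i + 1)) x) := by
    refine Finset.sum_congr rfl (fun i hi => ?_)
    have hi' : i < orderOf M.R := Finset.mem_range.mp hi
    have e1 : orderOf M.R - 1 - i + 1 = orderOf M.R - i := by omega
    have e2 : (M.R ^ i) ((M.R ^ (orderOf M.R - i)) x) = x := by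
      rw [← Equiv.Perm.mul_apply, ← pow_add]
      have : i + (orderOf M.R - i) = orderOf M.R := by omega
      rw [this, hN]
    have e3 := key i ((M.R ^ (orderOf M.R - i)) x)
    rw [e2] at e3
    rw [e1, e3, h2]
  rw [hlhs, Finset.sum_range_reflect (fun j => M.w ((M.R ^ (j + 1)) x)) (orderOf M.R)]
  have h3 := Finset.sum_range_succ (fun j => M.w ((M.R ^ j) x)) (orderOf M.R)
  have h4 := Finset.sum_range_succ' (fun j => M.w ((M.R ^ j) x)) (orderOf M.R)
  simp only [hN, pow_zero, Equiv.Perm.one_apply] at h3 h4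
  linarith

/-- if `mv` commutes with R and keeps the widths then the periods are the same -/
theorem W_comm (M : Surf S) (mv : S → S) (h1 : ∀ x, M.R (mv x) = mv (M.R x)) (h2 : ∀ x, M.w (mv x) = M.w x)
    (x : S) : M.W (mv x) = M.W x := by
  have key : ∀ (k : ℕ) (y : S), (M.R ^ k) (mv y) = mv ((M.R ^ k) y) := by
    intro k
    induction k with
    | zero => intro y; simp
    | succ n ih =>
      intro y
      rw [pow_succ', Equiv.Perm.mul_apply, ih, h1, ← Equiv.Perm.mul_apply, ← pow_succ']
  unfold Surf.W Surf.sm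
  exact Finset.sum_congr rfl (fun i _ => by rw [key, h2])

end Pool.Agent.Lib.H25R
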