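/-
CHUNK H25R-Generic (countability).

gen_exists: for every x the set of b in an open interval with not Gen M x b is countable (for every (n,k) with k <> 0 there is
exactly one b), an open interval is not countable (Cardinal / Set.Countable: not_countable_Ioo or Ioo has cardinality continuum).
indep_exists: choose b in I with Gen M x b, then d in J outside the countable set of solutions of the relations with l <> 0.
gen_of_indep: l = 0. gen_R: W and the row are the same for R x.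
uncount: if for every u in an open interval one of countably many relations holds then one relation holds for two different u's.
-/
import Pool.Agent.Lib.H25R.Sums

namespace Pool.Agent.Lib.H25R

open Finset

variable {S : Type}

private theorem avoid {A : Set ℝ} (hA : A.Countable) {p q : ℝ} (hpq : p < q) : ∃ b, p < b ∧ b < q ∧ b ∉ A := by
  obtain ⟨z, hz, h1, h2⟩ := (hA.dense_compl ℝ).exists_between hpq
  exact ⟨z, h1, h2, hz⟩

private theorem lin_sub (c k w : ℝ) (hk : k ≠ 0) (hw : w ≠ 0) : {b : ℝ | c + k * (b / w) = 0}.Subsingleton := by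
  intro b hb b' hb'
  simp only [Set.mem_setOf_eq] at hb hb'
  have h1 : k * (b / w) = k * (b' / w) := by linarith
  have h2 : b / w = b' / w := mul_left_cancel₀ hk h1
  rwa [div_left_inj' hw] at h2

theorem gen_exists (M : Surf S) [Fintype S] (x : S) {p q : ℝ} (hpq : p < q) : ∃ b, p < b ∧ b < q ∧ Gen M x b := by
  classical
  have hA : (⋃ i : {i : (S → ℤ) × ℤ // i.2 ≠ 0},
      {b : ℝ | (∑ z, (i.1.1 z : ℝ) * (M.h z / M.W z)) + (i.1.2 : ℝ) * (b / M.W x) = 0}).Countable := by
    refine Set.countable_iUnion fun i => ?_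
    exact (lin_sub _ _ _ (by exact_mod_cast i.2) (W_pos M x).ne').countable
  obtain ⟨b, h1, h2, h3⟩ := avoid hA hpq
  refine ⟨b, h1, h2, fun n k h => ?_⟩
  by_contra hk
  exact h3 (Set.mem_iUnion.2 ⟨⟨(n, k), hk⟩, h⟩)

/-- a generic `d` for given generic `b` -/
theorem indep_exists' (M : Surf S) [Fintype S] (x y : S) {b : ℝ} (hb : Gen M x b) {p' q' : ℝ} (hpq' : p' < q') :
    ∃ d, p' < d ∧ d < q' ∧ Indep2 M x b y d := by
  classical
  have hA : (⋃ i : {i : ((S → ℤ) × ℤ) × ℤ // i.2 ≠ 0},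
      {d : ℝ | ((∑ z, (i.1.1.1 z : ℝ) * (M.h z / M.W z)) + (i.1.1.2 : ℝ) * (b / M.W x)) +
        (i.1.2 : ℝ) * (d / M.W y) = 0}).Countable := by
    refine Set.countable_iUnion fun i => ?_
    exact (lin_sub _ _ _ (by exact_mod_cast i.2) (W_pos M y).ne').countable
  obtain ⟨d, h1, h2, h3⟩ := avoid hA hpq'
  refine ⟨d, h1, h2, fun n k l h => ?_⟩
  have hl : l = 0 := by
    by_contra hl
    exact h3 (Set.mem_iUnion.2 ⟨⟨((n, k), l), hl⟩, h⟩)
  refine ⟨hb n k ?_, hl⟩
  rw [hl, Int.cast_zero, zero_mul, add_zero] at h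
  exact h

theorem indep_exists (M : Surf S) [Fintype S] (x y : S) {p q p' q' : ℝ} (hpq : p < q) (hpq' : p' < q') :
    ∃ b d, p < b ∧ b < q ∧ p' < d ∧ d < q' ∧ Indep2 M x b y d := by
  obtain ⟨b, h1, h2, hb⟩ := gen_exists M x hpq
  obtain ⟨d, h3, h4, hd⟩ := indep_exists' M x y hb hpq'
  exact ⟨b, d, h1, h2, h3, h4, hd⟩

theorem gen_of_indep (M : Surf S) [Fintype S] {x y : S} {b d : ℝ} (h : Indep2 M x b y d) : Gen M x b := by
  intro n k hk
  refine (h n k 0 ?_).1
  rw [Int.cast_zero, zero_mul, add_zero]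
  exact hk

theorem gen_R (M : Surf S) [Fintype S] {x : S} {b : ℝ} : Gen M (M.R x) b ↔ Gen M x b := by
  unfold Gen
  rw [W_R]

theorem indep_R (M : Surf S) [Fintype S] {x y : S} {b d : ℝ} : Indep2 M (M.R x) b y d ↔ Indep2 M x b y d := by
  unfold Indep2
  rw [W_R]

theorem uncount {ι : Type} [Countable ι] (P : ι → ℝ → Prop) {p q : ℝ} (hpq : p < q)
    (h : ∀ u, p < u → u < q → ∃ i, P i u) : ∃ i u v, u ≠ v ∧ p < u ∧ u < q ∧ p < v ∧ v < q ∧ P i u ∧ P i v := by
  by_contra hc
  push Not at hc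
  have hA : (⋃ i : ι, {u : ℝ | p < u ∧ u < q ∧ P i u}).Countable := by
    refine Set.countable_iUnion fun i => ?_
    refine Set.Subsingleton.countable ?_
    rintro u ⟨hu1, hu2, hu3⟩ v ⟨hv1, hv2, hv3⟩
    by_contra huv
    exact hc i u v huv hu1 hu2 hv1 hv2 hu3 hv3
  obtain ⟨u, h1, h2, h3⟩ := avoid hA hpq
  obtain ⟨i, hi⟩ := h u h1 h2
  exact h3 (Set.mem_iUnion.2 ⟨i, h1, h2, hi⟩)

end Pool.Agent.Lib.H25R
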