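/-
CHUNK H25R-HMove (the main lemma: shear closure).

Let hr be a Row path of slope s0 from (x',a',b) to (y,c',d), x' = R^j x. There are eps > 0 and T such that for every t >= T
which is a return (all t h(z) are eps-close to integer multiples of W z), every start (x,a,b) whose leaf position, sheared,
is eps-close to that of (x',a',b) and every end (y,c,d) whose sheared position is eps-close to (y,c',d), there is a Row
path from (x,a,b) to (y,c,d).

PROOF. `Good`: there is v > 0 (total vertical distance) such that for all v0 >= 0 there is r > 0, for all eta > 0 there are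
eps > 0, T, for all returns t >= T, all a0 with |a0 - t b - m W x - (sm x j + a')| < eps for some integer m, there is P0
with |P0 - t d - m' W y - c'| < eta for some integer m', such that for all |sg| < r with 0 <= a0 + v0 sg and all c in
(0, w y] with c = P0 + (v0 + v) sg mod W y: Row M (s0 + t + sg) x (a0 + v0 sg) b y c d. Induction on the Row path.
END: solve v sg = c - P0 mod W y with v0 = 0.
-/
import Pool.Agent.Lib.H25R.Sums

namespace Pool.Agent.Lib.H25R

open Finset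

variable {S : Type}

/-- the statement of the induction -/
def HGood (M : Surf S) (s0 : ℝ) (x' : S) (a' b : ℝ) (y : S) (c' d : ℝ) : Prop :=
  ∃ v : ℝ, 0 < v ∧ ∀ v0 : ℝ, 0 ≤ v0 → ∀ (x : S) (j : ℕ), x' = (M.R ^ j) x →
    ∃ r : ℝ, 0 < r ∧ ∀ η : ℝ, 0 < η → ∃ ε : ℝ, 0 < ε ∧ ∃ T : ℝ, ∀ t : ℝ, T ≤ t →
      (∀ z, ∃ m : ℤ, |t * M.h z - m * M.W z| < ε) →
      ∀ a0 : ℝ, (∃ m : ℤ, |a0 - t * b - m * M.W x - (M.sm x j + a')| < ε) →
      ∃ P0 : ℝ, (∃ m : ℤ, |P0 - t * d - m * M.W y - c'| < η) ∧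
        ∀ σ : ℝ, |σ| < r → 0 ≤ a0 + v0 * σ → ∀ c : ℝ, 0 < c → c ≤ M.w y →
          (∃ m : ℤ, c = P0 + (v0 + v) * σ + m * M.W y) →
          Row M (s0 + t + σ) x (a0 + v0 * σ) b y c d

theorem hgood_last (M : Surf S) [Finite S] {s0 : ℝ} (x' : S) (a' b : ℝ) (k : ℕ) (c' d : ℝ)
    (hd : b < d) (hdh : d ≤ M.h x') (hc : a' + s0 * (d - b) = M.sm x' k + c')
    (hcw : c' ≤ M.w ((M.R ^ k) x')) : HGood M s0 x' a' b ((M.R ^ k) x') c' d := by
  refine ⟨d - b, by linarith, ?_⟩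
  intro v0 hv0 x j hj
  refine ⟨1, one_pos, ?_⟩
  intro η hη
  have hdb : 0 < d - b := by linarith
  have hWy : M.W ((M.R ^ k) x') = M.W x := by
    rw [W_pow, hj, W_pow]
  have hWx : 0 < M.W x := W_pos M x
  have hR : (M.R ^ k) x' = (M.R ^ (j + k)) x := by
    rw [hj, ← Equiv.Perm.mul_apply, ← pow_add, Nat.add_comm]
  have hsm : M.sm x (j + k) = M.sm x j + M.sm x' k := by
    rw [sm_add, ← hj]
  refine ⟨η, hη, (M.sm x (j + k) + M.W x) / (d - b) + 1 - s0, ?_⟩
  intro t ht _ a0 ha0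
  obtain ⟨m, hm⟩ := ha0
  refine ⟨a0 + (s0 + t) * (d - b) - M.sm x (j + k), ⟨m, ?_⟩, ?_⟩
  · rw [hWy]
    have e : a0 + (s0 + t) * (d - b) - M.sm x (j + k) - t * d - m * M.W x - c' =
        a0 - t * b - m * M.W x - (M.sm x j + a') := by
      rw [hsm]
      linear_combination hc
    rw [e]
    exact hm
  · intro σ hσ ha c hc0 hcw' ⟨m', hm'⟩
    rw [hWy] at hm'
    have hσ' := abs_lt.mp hσ
    -- the multiple is nonnegative
    have h1 : (M.sm x (j + k) + M.W x) / (d - b) ≤ s0 + t + σ := by linarith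
    have h2 : M.sm x (j + k) + M.W x ≤ (s0 + t + σ) * (d - b) := (div_le_iff₀ hdb).mp h1
    have h3 : c ≤ M.W x := by
      refine hcw'.trans ?_
      rw [← hWy]
      exact w_le_W M _
    have h4 : 0 ≤ (-m' : ℝ) * M.W x := by
      have e : (-m' : ℝ) * M.W x = (a0 + v0 * σ) + (s0 + t + σ) * (d - b) - M.sm x (j + k) - c := by
        rw [hm']
        ring
      rw [e]
      linarith
    have h5 : 0 ≤ (-m' : ℝ) := by
      by_contra hneg
      push Not at hneg
      exact absurd h4 (not_le.mpr (mul_neg_of_neg_of_pos hneg hWx))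
    have h6 : 0 ≤ -m' := by exact_mod_cast h5
    obtain ⟨q, hq⟩ := Int.eq_ofNat_of_zero_le h6
    have hqr : (q : ℝ) = -(m' : ℝ) := by
      have : ((q : ℤ) : ℝ) = ((-m' : ℤ) : ℝ) := by rw [hq]
      push_cast at this
      exact this
    have hend : (M.R ^ k) x' = (M.R ^ (j + k + q * orderOf M.R)) x := by
      rw [pow_mul_order, hR]
    rw [hend] at hcw' ⊢
    refine Row.last x _ b (j + k + q * orderOf M.R) c d hd ?_ ?_ hc0 hcw'
    · rw [hj, h_pow] at hdh
      exact hdh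
    · rw [sm_mul, hqr, hm']
      ring

theorem hgood_up (M : Surf S) [Finite S] {s0 : ℝ} (x' : S) (a' b : ℝ) (k : ℕ) (a1 : ℝ) (y : S)
    (c' d : ℝ) (hb : b < M.h x') (ha1 : a' + s0 * (M.h x' - b) = M.sm x' k + a1) (h0 : 0 < a1)
    (hw : a1 < M.w ((M.R ^ k) x')) (ih : HGood M s0 (M.U ((M.R ^ k) x')) a1 0 y c' d) :
    HGood M s0 x' a' b y c' d := by
  obtain ⟨v1, hv1, ih⟩ := ih
  have hhb : 0 < M.h x' - b := by linarith
  refine ⟨v1 + (M.h x' - b), by linarith, ?_⟩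
  intro v0 hv0 x j hj
  have hhx : M.h x' = M.h x := by rw [hj, h_pow]
  obtain ⟨r1, hr1, ih⟩ := ih (v0 + (M.h x' - b)) (by linarith) (M.U ((M.R ^ k) x')) 0 (by
    rw [pow_zero, Equiv.Perm.one_apply])
  set v0' : ℝ := v0 + (M.h x' - b) with hv0'
  have hv0'pos : 0 < v0' := by rw [hv0']; linarith
  set δ : ℝ := min a1 (M.w ((M.R ^ k) x') - a1) with hδ
  have hδpos : 0 < δ := lt_min h0 (by linarith)
  have hδ1 : δ ≤ a1 := min_le_left _ _
  have hδ2 : δ ≤ M.w ((M.R ^ k) x') - a1 := min_le_right _ _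
  set r : ℝ := min r1 (min 1 (δ / (2 * v0'))) with hr
  have hrpos : 0 < r := lt_min hr1 (lt_min one_pos (by positivity))
  have hr_1 : r ≤ r1 := min_le_left _ _
  have hr_2 : r ≤ 1 := (min_le_right _ _).trans (min_le_left _ _)
  have hr_3 : r ≤ δ / (2 * v0') := (min_le_right _ _).trans (min_le_right _ _)
  have hr_4 : v0' * r ≤ δ / 2 := by
    have := mul_le_mul_of_nonneg_left hr_3 hv0'pos.le
    have e : v0' * (δ / (2 * v0')) = δ / 2 := by
      field_simp
    linarith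
  refine ⟨r, hrpos, ?_⟩
  intro η hη
  obtain ⟨ε1, hε1, T1, ih⟩ := ih η hη
  have hWx : 0 < M.W x := W_pos M x
  have hW' : M.W ((M.R ^ k) x') = M.W x := by
    rw [W_pow, hj, W_pow]
  have hR : (M.R ^ k) x' = (M.R ^ (j + k)) x := by
    rw [hj, ← Equiv.Perm.mul_apply, ← pow_add, Nat.add_comm]
  have hsm : M.sm x (j + k) = M.sm x j + M.sm x' k := by
    rw [sm_add, ← hj]
  refine ⟨min (ε1 / 2) (δ / 4), lt_min (by linarith) (by linarith),
    max T1 ((M.sm x (j + k) + M.W x) / (M.h x' - b) + 1 - s0), ?_⟩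
  intro t ht hret a0 ha0
  have ht1 : T1 ≤ t := (le_max_left _ _).trans ht
  have ht2 : (M.sm x (j + k) + M.W x) / (M.h x' - b) + 1 - s0 ≤ t := (le_max_right _ _).trans ht
  obtain ⟨m, hm⟩ := ha0
  obtain ⟨mx, hmx⟩ := hret x
  have hε_1 : min (ε1 / 2) (δ / 4) ≤ ε1 / 2 := min_le_left _ _
  have hε_2 : min (ε1 / 2) (δ / 4) ≤ δ / 4 := min_le_right _ _
  set a0' : ℝ := a0 + (s0 + t) * (M.h x' - b) - (m + mx) * M.W x - M.sm x (j + k) with ha0'
  have hdiff : a0' - a1 = (a0 - t * b - m * M.W x - (M.sm x j + a')) + (t * M.h x - mx * M.W x) := by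
    rw [ha0', hsm, hhx]
    rw [hhx] at ha1
    linear_combination ha1
  have habs : |a0' - a1| < 2 * min (ε1 / 2) (δ / 4) := by
    rw [hdiff]
    have := abs_add_le (a0 - t * b - m * M.W x - (M.sm x j + a')) (t * M.h x - mx * M.W x)
    linarith
  have habs1 : |a0' - a1| < ε1 := by linarith
  have habs2 : |a0' - a1| < δ / 2 := by linarith
  obtain ⟨P0, hP0, ih⟩ := ih t ht1 (fun z => by
      obtain ⟨mz, hmz⟩ := hret z
      exact ⟨mz, by linarith⟩) a0' ⟨0, by
      have e : a0' - t * 0 - ((0 : ℤ) : ℝ) * M.W (M.U ((M.R ^ k) x')) -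
          (M.sm (M.U ((M.R ^ k) x')) 0 + a1) = a0' - a1 := by
        have e0 : M.sm (M.U ((M.R ^ k) x')) 0 = 0 := by
          unfold Surf.sm
          rw [Finset.range_zero, Finset.sum_empty]
        rw [e0]
        push_cast
        ring
      rw [e]
      exact habs1⟩
  refine ⟨P0, hP0, ?_⟩
  intro σ hσ ha c hc0 hcw ⟨m', hm'⟩
  have hσ' := abs_lt.mp hσ
  -- the position after the row
  have hvs : |v0' * σ| ≤ δ / 2 := by
    rw [abs_mul, abs_of_pos hv0'pos]
    have := mul_le_mul_of_nonneg_left hσ.le hv0'pos.le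
    linarith
  have hpos1 := abs_lt.mp habs2
  have hpos2 := abs_le.mp hvs
  have hA0 : 0 < a0' + v0' * σ := by linarith
  have hA1 : a0' + v0' * σ < M.w ((M.R ^ k) x') := by linarith
  have hrow := ih σ (lt_of_lt_of_le hσ hr_1) hA0.le c hc0 hcw ⟨m', by
    rw [hm', hv0']
    ring⟩
  -- the number of turns
  have h1 : (M.sm x (j + k) + M.W x) / (M.h x' - b) ≤ s0 + t + σ := by linarith
  have h2 : M.sm x (j + k) + M.W x ≤ (s0 + t + σ) * (M.h x' - b) := (div_le_iff₀ hhb).mp h1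
  have h3 : a0' + v0' * σ ≤ M.W x := by
    refine hA1.le.trans ?_
    rw [← hW']
    exact w_le_W M _
  have hkey : (a0 + v0 * σ) + (s0 + t + σ) * (M.h x' - b) =
      ((m : ℝ) + mx) * M.W x + M.sm x (j + k) + (a0' + v0' * σ) := by
    rw [ha0', hv0']
    ring
  have h4 : 0 ≤ ((m : ℝ) + mx) * M.W x := by linarith
  have h5 : 0 ≤ (m : ℝ) + mx := by
    by_contra hneg
    push Not at hneg
    exact absurd h4 (not_le.mpr (mul_neg_of_neg_of_pos hneg hWx))
  have h6 : 0 ≤ m + mx := by exact_mod_cast h5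
  obtain ⟨q, hq⟩ := Int.eq_ofNat_of_zero_le h6
  have hqr : (q : ℝ) = (m : ℝ) + mx := by
    have : ((q : ℤ) : ℝ) = ((m + mx : ℤ) : ℝ) := by rw [hq]
    push_cast at this
    exact this
  have hend : (M.R ^ k) x' = (M.R ^ (j + k + q * orderOf M.R)) x := by
    rw [pow_mul_order, hR]
  rw [hend] at hrow hA1
  refine Row.up x _ b (j + k + q * orderOf M.R) (a0' + v0' * σ) y c d ?_ ?_ hA0 hA1 hrow
  · rw [← hhx]
    exact hb
  · rw [sm_mul, hqr, ← hhx, hkey]
    ring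

theorem hgood (M : Surf S) [Finite S] {s0 : ℝ} {x' : S} {a' b : ℝ} {y : S} {c' d : ℝ}
    (hr : Row M s0 x' a' b y c' d) : HGood M s0 x' a' b y c' d := by
  induction hr with
  | last x a b k c d hd hdh hc hc0 hcw => exact hgood_last M x a b k c d hd hdh hc hcw
  | up x a b k a1 y c d hb ha1 h0 hw hl ih => exact hgood_up M x a b k a1 y c d hb ha1 h0 hw ih

theorem hmove (M : Surf S) [Finite S] {s0 : ℝ} (hs0 : 0 < s0) {x' : S} {a' b : ℝ} {y : S} {c' d : ℝ}
    (hr : Row M s0 x' a' b y c' d) (x : S) (j : ℕ) (hj : x' = (M.R ^ j) x) :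
    ∃ ε : ℝ, 0 < ε ∧ ∃ T : ℝ, ∀ t : ℝ, T ≤ t → (∀ z, ∃ m : ℤ, |t * M.h z - m * M.W z| < ε) →
      ∀ a : ℝ, 0 ≤ a → (∃ m : ℤ, |a - t * b - m * M.W x - (M.sm x j + a')| < ε) →
      ∀ c : ℝ, 0 < c → c ≤ M.w y → (∃ m : ℤ, |c - t * d - m * M.W y - c'| < ε) →
      ∃ s : ℝ, 0 < s ∧ Row M s x a b y c d := by
  obtain ⟨v, hv, h⟩ := hgood M hr
  obtain ⟨r, hr0, h⟩ := h 0 le_rfl x j hj
  obtain ⟨ε0, hε0, T0, h⟩ := h (v * r / 4) (by positivity)
  refine ⟨min ε0 (v * r / 4), lt_min hε0 (by positivity), max T0 r, ?_⟩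
  intro t ht hret a ha hma c hc0 hcw hmc
  obtain ⟨P0, ⟨m1, hm1⟩, h⟩ := h t ((le_max_left _ _).trans ht) (fun z => by
      obtain ⟨mz, hmz⟩ := hret z
      exact ⟨mz, lt_of_lt_of_le hmz (min_le_left _ _)⟩) a (by
      obtain ⟨m, hm⟩ := hma
      exact ⟨m, lt_of_lt_of_le hm (min_le_left _ _)⟩)
  obtain ⟨m2, hm2⟩ := hmc
  have hm2' : |c - t * d - m2 * M.W y - c'| < v * r / 4 := lt_of_lt_of_le hm2 (min_le_right _ _)
  have hdiff : |c - P0 - ((m2 : ℝ) - m1) * M.W y| < v * r := by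
    have e : c - P0 - ((m2 : ℝ) - m1) * M.W y =
        (c - t * d - m2 * M.W y - c') - (P0 - t * d - m1 * M.W y - c') := by ring
    rw [e]
    have h1 := abs_sub (c - t * d - m2 * M.W y - c') (P0 - t * d - m1 * M.W y - c')
    have h2 : 0 < v * r := by positivity
    linarith
  have hσ : |(c - P0 - ((m2 : ℝ) - m1) * M.W y) / v| < r := by
    rw [abs_div, abs_of_pos hv, div_lt_iff₀ hv]
    linarith
  have hrow := h _ hσ (by rw [zero_mul, add_zero]; exact ha) c hc0 hcw ⟨m2 - m1, by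
    push_cast
    field_simp
    ring⟩
  rw [zero_mul, add_zero] at hrow
  refine ⟨_, ?_, hrow⟩
  have h1 := abs_lt.mp hσ
  have h2 : r ≤ t := (le_max_right _ _).trans ht
  linarith

end Pool.Agent.Lib.H25R
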