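/-
CHUNK H25R-RowLine (equivalence of the two forms of a segment, and exchange of the coordinates).

line_row: induction on the Line. here: Row.last with k = 0. right: the Row from (R x, 0, b1) is last or up with k; from
  (x, a, b) it is the same with k + 1 (sm x (k+1) = w x + sm (R x) k, R^(k+1) x = R^k (R x), s (b1 - b) = w x - a, b < b1).
  up: Row.up with k = 0.
row_line: it is enough to expand one row: induction on k for all (x, a, b) with a < w x:
  k = 0: here / up. k + 1: right with b1 = b + (w x - a)/s; b1 < d <= h x resp. b1 < h x because c > 0 resp. a1 > 0;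
  then the row from (R x, 0, b1) with k (0 < w (R x)).
line_swap: right <-> up, here: d = b + (c - a)/s.
-/
import Pool.Agent.Lib.H25R.Defs

namespace Pool.Agent.Lib.H25R

open Finset

variable {S : Type}

theorem sm_zero (M : Surf S) (x : S) : M.sm x 0 = 0 := by
  simp [Surf.sm]

theorem sm_succ' (M : Surf S) (x : S) (k : ℕ) : M.sm x (k + 1) = M.w x + M.sm (M.R x) k := by
  unfold Surf.sm
  rw [Finset.sum_range_succ', add_comm]
  congr 1

theorem row_line_sm_nonneg (M : Surf S) (x : S) (k : ℕ) : 0 ≤ M.sm x k :=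
  Finset.sum_nonneg fun _ _ => (M.w_pos _).le

theorem row_line_right (M : Surf S) {s : ℝ} (hs : 0 < s) {x : S} {a b b1 : ℝ} {y : S} {c d : ℝ}
    (ha : a < M.w x) (hb1 : s * (b1 - b) = M.w x - a) (hh : b1 < M.h x)
    (h : Row M s (M.R x) 0 b1 y c d) : Row M s x a b y c d := by
  have hbb : b < b1 := by
    by_contra hcon
    have h1 : s * (b1 - b) ≤ 0 := mul_nonpos_of_nonneg_of_nonpos hs.le (by linarith)
    linarith
  cases h with
  | last _ _ _ k _ _ hd hdh hc hc0 hcw =>
    refine Row.last x a b (k + 1) c d (by linarith) (by rw [M.hR] at hdh; exact hdh) ?_ hc0 hcw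
    rw [sm_succ']
    nlinarith
  | up _ _ _ k a1 _ _ _ hb ha1 h0 hw hl =>
    refine Row.up x a b (k + 1) a1 y c d (by linarith) ?_ h0 hw hl
    rw [sm_succ']
    rw [M.hR] at ha1
    nlinarith

theorem line_row (M : Surf S) {s : ℝ} (hs : 0 < s) {x : S} {a b : ℝ} {y : S} {c d : ℝ} (ha : 0 ≤ a)
    (h : Line M s x a b y c d) : Row M s x a b y c d := by
  induction h with
  | here x a b c d hd hc hcw hdh =>
    have h1 : 0 < s * (d - b) := mul_pos hs (by linarith)
    refine Row.last x a b 0 c d hd hdh ?_ (by linarith) hcw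
    rw [sm_zero]
    linarith
  | right x a b y c d b1 ha' hb1 hh hl ih =>
    exact row_line_right M hs ha' hb1 hh (ih le_rfl)
  | up x a b y c d a1 hb ha1 hw hl ih =>
    have h1 : 0 < s * (M.h x - b) := mul_pos hs (by linarith)
    have h2 : 0 < a1 := by linarith
    refine Row.up x a b 0 a1 y c d hb ?_ h2 hw (ih h2.le)
    rw [sm_zero]
    linarith

theorem row_line_last (M : Surf S) {s : ℝ} (hs : 0 < s) (k : ℕ) : ∀ (x : S) (a b c d : ℝ),
    a < M.w x → b < d → d ≤ M.h x → a + s * (d - b) = M.sm x k + c → 0 < c →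
    c ≤ M.w ((M.R ^ k) x) → Line M s x a b ((M.R ^ k) x) c d := by
  induction k with
  | zero =>
    intro x a b c d ha hd hdh hc hc0 hcw
    rw [sm_zero] at hc
    exact Line.here x a b c d hd (by linarith) hcw hdh
  | succ k ih =>
    intro x a b c d ha hd hdh hc hc0 hcw
    rw [sm_succ'] at hc
    have h1 : s * (b + (M.w x - a) / s - b) = M.w x - a := by
      field_simp
      ring
    have h2 : 0 ≤ M.sm (M.R x) k := row_line_sm_nonneg M _ _
    have h3 : s * (d - (b + (M.w x - a) / s)) = M.sm (M.R x) k + c := by nlinarith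
    have h4 : b + (M.w x - a) / s < d := by
      by_contra hcon
      have h5 : s * (d - (b + (M.w x - a) / s)) ≤ 0 :=
        mul_nonpos_of_nonneg_of_nonpos hs.le (by linarith)
      linarith
    refine Line.right x a b _ c d (b + (M.w x - a) / s) ha h1 (by linarith) ?_
    exact ih (M.R x) 0 _ c d (M.w_pos _) h4 (by rw [M.hR]; exact hdh) (by linarith) hc0 hcw

theorem row_line_up (M : Surf S) {s : ℝ} (hs : 0 < s) {y : S} {c d : ℝ} (k : ℕ) :
    ∀ (x : S) (a b a1 : ℝ), a < M.w x → b < M.h x → a + s * (M.h x - b) = M.sm x k + a1 → 0 < a1 →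
    a1 < M.w ((M.R ^ k) x) → Line M s (M.U ((M.R ^ k) x)) a1 0 y c d → Line M s x a b y c d := by
  induction k with
  | zero =>
    intro x a b a1 ha hb ha1 h0 hw hl
    rw [sm_zero] at ha1
    exact Line.up x a b y c d a1 hb (by linarith) hw hl
  | succ k ih =>
    intro x a b a1 ha hb ha1 h0 hw hl
    rw [sm_succ'] at ha1
    have h1 : s * (b + (M.w x - a) / s - b) = M.w x - a := by
      field_simp
      ring
    have h2 : 0 ≤ M.sm (M.R x) k := row_line_sm_nonneg M _ _
    have h3 : s * (M.h x - (b + (M.w x - a) / s)) = M.sm (M.R x) k + a1 := by nlinarith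
    have h4 : b + (M.w x - a) / s < M.h x := by
      by_contra hcon
      have h5 : s * (M.h x - (b + (M.w x - a) / s)) ≤ 0 :=
        mul_nonpos_of_nonneg_of_nonpos hs.le (by linarith)
      linarith
    refine Line.right x a b _ c d (b + (M.w x - a) / s) ha h1 h4 ?_
    exact ih (M.R x) 0 _ a1 (M.w_pos _) (by rw [M.hR]; exact h4) (by rw [M.hR]; linarith) h0 hw hl

theorem row_line (M : Surf S) {s : ℝ} (hs : 0 < s) {x : S} {a b : ℝ} {y : S} {c d : ℝ} (ha : a < M.w x)
    (h : Row M s x a b y c d) : Line M s x a b y c d := by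
  induction h with
  | last x a b k c d hd hdh hc hc0 hcw =>
    exact row_line_last M hs k x a b c d ha hd hdh hc hc0 hcw
  | up x a b k a1 y c d hb ha1 h0 hw hl ih =>
    exact row_line_up M hs k x a b a1 ha hb ha1 h0 hw (ih (by rw [M.wU]; exact hw))

theorem line_swap (M : Surf S) {s : ℝ} (hs : 0 < s) {x : S} {a b : ℝ} {y : S} {c d : ℝ}
    (h : Line M s x a b y c d) : Line M.swap s⁻¹ x b a y d c := by
  have hs0 : s ≠ 0 := hs.ne'
  induction h with
  | here x a b c d hd hc hcw hdh =>
    have h1 : 0 < s * (d - b) := mul_pos hs (by linarith)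
    refine Line.here (M := M.swap) x b a d c (by linarith) ?_ hdh hcw
    rw [hc]
    field_simp
    ring
  | right x a b y c d b1 ha' hb1 hh hl ih =>
    refine Line.up (M := M.swap) x b a y d c b1 ha' ?_ hh ih
    have h1 : M.swap.h x = M.w x := rfl
    rw [h1, ← hb1]
    field_simp
    ring
  | up x a b y c d a1 hb ha1 hw hl ih =>
    refine Line.right (M := M.swap) x b a y d c a1 hb ?_ hw ih
    have h1 : M.swap.w x = M.h x := rfl
    rw [h1, ha1]
    field_simp
    ring

theorem lit_swap (M : Surf S) {x : S} {a b : ℝ} {y : S} {c d : ℝ} :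
    Lit M.swap x b a y d c ↔ Lit M x a b y c d := by
  constructor
  · rintro ⟨s, hs, h⟩
    exact ⟨s⁻¹, inv_pos.2 hs, line_swap M.swap hs h⟩
  · rintro ⟨s, hs, h⟩
    exact ⟨s⁻¹, inv_pos.2 hs, line_swap M hs h⟩

end Pool.Agent.Lib.H25R
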