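/-
CHUNK H25R-MoveDep (the three horizontal moves, from hmove and kronecker).

All three: line_row on the given Lit (slope s0), hmove gives eps, T for j; kronecker with the index set S + 2 elements (Option (Option S) or
Sum S (Fin 2)): al = h z / W z, b / W x, d / W y; targets 0, be1, be2; eps' = eps / (1 + max of the W's); T' = max T .. . Then
row_line. Here W z > 0 (W_pos), W x' = W x (W_pow).
 move_free: targets be1 with W x be1 = a - sm x j - a', be2 with W y be2 = c - c': relation condition = Indep2 (k = l = 0).
 move_dep: targets m u, l u; relation n, k, k' with sum n h/W + k b/W + k' d/W' = 0: multiply by m and insert hrel: Gen gives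
   k m + k' l = 0 (use the integer family m n + k' n0), so k m u + k' l u = 0.
 move_fix: targets be1 arbitrary, 0; m times the relation: Gen gives k m = 0, k = 0.
-/
import Pool.Agent.Lib.H25R.RowLine
import Pool.Agent.Lib.H25R.HMove
import Pool.Agent.Lib.H25R.Kron

namespace Pool.Agent.Lib.H25R

open Finset

variable {S : Type}

/-- the common part: from an error in the angle to an error in the length -/
private theorem MoveDep_scale {Wz B e v : ℝ} (hW : 0 < Wz) (hB : Wz ≤ B) (hv : |v| < e / B) :
    |Wz * v| < e := by
  have hB0 : 0 < B := lt_of_lt_of_le hW hB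
  rw [abs_mul, abs_of_pos hW]
  have h1 : |v| * B < e := (lt_div_iff₀ hB0).1 hv
  have h2 : Wz * |v| ≤ B * |v| := mul_le_mul_of_nonneg_right hB (abs_nonneg v)
  have h3 : B * |v| = |v| * B := mul_comm _ _
  linarith

theorem move_dep (M : Surf S) [Fintype S] {x y : S} {b d : ℝ} (hg : Gen M x b) (m l : ℤ) (hm : m ≠ 0) (n : S → ℤ)
    (hrel : m * (d / M.W y) = (∑ z, (n z : ℝ) * (M.h z / M.W z)) + l * (b / M.W x)) (u : ℝ) {a c : ℝ}
    (ha' : 0 ≤ a - m * M.W x * u) (hL : Lit M x (a - m * M.W x * u) b y (c - l * M.W y * u) d)
    (ha0 : 0 ≤ a) (ha : a < M.w x) (hc0 : 0 < c) (hc : c ≤ M.w y) : Lit M x a b y c d := by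
  obtain ⟨s0, hs0, hLine⟩ := hL
  have hrow := line_row M hs0 ha' hLine
  obtain ⟨e, he, T, hT⟩ := hmove M hs0 hrow x 0 (by simp)
  obtain ⟨B, hB⟩ : ∃ B : ℝ, ∀ z, M.W z ≤ B := by
    refine ⟨∑ z, M.W z, fun z => ?_⟩
    exact single_le_sum (f := fun z => M.W z) (fun i _ => (W_pos M i).le) (mem_univ z)
  have hB0 : 0 < B := lt_of_lt_of_le (W_pos M x) (hB x)
  obtain ⟨t, ht, hk⟩ := kronecker (ι := Option (Option S))
    (fun i => match i with
      | none => b / M.W x
      | some none => d / M.W y
      | some (some z) => M.h z / M.W z)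
    (fun i => match i with
      | none => m * u
      | some none => l * u
      | some (some _) => 0) (by
      intro f hf
      refine ⟨0, ?_⟩
      rw [Fintype.sum_option, Fintype.sum_option] at hf ⊢
      simp only at hf ⊢
      have h1 := hg (fun z => m * f (some (some z)) + f (some none) * n z)
        (m * f none + f (some none) * l) (by
          have h2 : (∑ z, ((m * f (some (some z)) + f (some none) * n z : ℤ) : ℝ) *
              (M.h z / M.W z)) = m * (∑ z, (f (some (some z)) : ℝ) * (M.h z / M.W z)) +
              f (some none) * ∑ z, (n z : ℝ) * (M.h z / M.W z) := by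
            rw [mul_sum, mul_sum, ← sum_add_distrib]
            refine sum_congr rfl fun z _ => ?_
            push_cast
            ring
          rw [h2]
          push_cast
          linear_combination (m : ℝ) * hf - (f (some none) : ℝ) * hrel)
      have h3 : ((m : ℝ) * f none + f (some none) * l) = 0 := by exact_mod_cast h1
      simp only [mul_zero, sum_const_zero, add_zero, Int.cast_zero]
      linear_combination u * h3) (e / B) (div_pos he hB0) T
  obtain ⟨m1, hm1⟩ := hk none
  obtain ⟨m2, hm2⟩ := hk (some none)
  simp only at hm1 hm2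
  have hWx := W_pos M x
  have hWy := W_pos M y
  obtain ⟨s, hs, hr⟩ := hT t ht (fun z => by
    obtain ⟨m3, hm3⟩ := hk (some (some z))
    simp only at hm3
    refine ⟨m3, ?_⟩
    have hWz := W_pos M z
    have h1 : t * M.h z - m3 * M.W z = M.W z * (t * (M.h z / M.W z) - 0 - m3) := by
      field_simp
      ring
    rw [h1]
    exact MoveDep_scale hWz (hB z) hm3) a ha0 ⟨-m1, by
    have h1 : a - t * b - ((-m1 : ℤ) : ℝ) * M.W x - (M.sm x 0 + (a - m * M.W x * u)) =
        -(M.W x * (t * (b / M.W x) - m * u - m1)) := by
      rw [sm_zero]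
      push_cast
      field_simp
      ring
    rw [h1, abs_neg]
    exact MoveDep_scale hWx (hB x) hm1⟩ c hc0 hc ⟨-m2, by
    have h1 : c - t * d - ((-m2 : ℤ) : ℝ) * M.W y - (c - l * M.W y * u) =
        -(M.W y * (t * (d / M.W y) - l * u - m2)) := by
      push_cast
      field_simp
      ring
    rw [h1, abs_neg]
    exact MoveDep_scale hWy (hB y) hm2⟩
  exact ⟨s, hs, row_line M hs ha hr⟩

end Pool.Agent.Lib.H25R
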