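/-
CHUNK H25R-MoveFix (the three horizontal moves, from hmove and kronecker).

All three: line_row on the given Lit (slope s0), hmove gives eps, T for j; kronecker with the index set S + 2 elements (Option (Option S) or
Sum S (Fin 2)): al = h z / W z, b / W x, d / W y; targets 0, be1, be2; eps' = eps / (1 + max of the W's); T' = max T .. . Then
row_line. Here W z > 0 (W_pos), W x' = W x (W_pow).
 move_free: targets be1 with W x be1 = a - sm x j - a', be2 with W y be2 = c - c': relation condition = Indep2 (k = l = 0).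
 move_dep: targets m u, l u; relation n, k, k' with sum n h/W + k b/W + k' d/W' = 0: multiply by m and insert hrel: Gen gives
   k m + k' l = 0 (use the integer family m n + k' n0), so k m u + k' l u = 0.
 move_fix: targets be1 arbitrary, 0; m times the relation: Gen gives k m = 0, k = 0.
-/
import Pool.Agent.Lib.H25R.RowLine
import Pool.Agent.Lib.H25R.HMove
import Pool.Agent.Lib.H25R.Kron

namespace Pool.Agent.Lib.H25R

open Finset

variable {S : Type}

theorem move_fix (M : Surf S) [Fintype S] {x y : S} {b d : ℝ} (hg : Gen M x b) (m : ℤ) (hm : m ≠ 0) (n : S → ℤ)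
    (hrel : m * (d / M.W y) = ∑ z, (n z : ℝ) * (M.h z / M.W z)) (j : ℕ) {a' c : ℝ} (ha' : 0 ≤ a')
    (hL : Lit M ((M.R ^ j) x) a' b y c d) {a : ℝ} (ha0 : 0 ≤ a) (ha : a < M.w x) (hc0 : 0 < c) (hc : c ≤ M.w y) :
    Lit M x a b y c d := by
  classical
  obtain ⟨s0, hs0, hline⟩ := hL
  obtain ⟨ε, hε, T, H⟩ := hmove M hs0 (line_row M hs0 ha' hline) x j rfl
  have hW : ∀ z, 0 < M.W z := fun z => W_pos M z
  have hS0 : 0 ≤ ∑ z, M.W z := Finset.sum_nonneg fun z _ => (hW z).le
  have hWS : ∀ z, M.W z ≤ ∑ z, M.W z := fun z =>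
    Finset.single_le_sum (f := fun z => M.W z) (fun z _ => (hW z).le) (Finset.mem_univ z)
  -- the general step from the circle to the line
  have key : ∀ (z : S) (u v : ℝ) (k : ℤ), |u / M.W z - v / M.W z - k| < ε / (1 + ∑ z, M.W z) →
      |u - v - k * M.W z| < ε := by
    intro z u v k h
    have hz := hW z
    have e : u - v - k * M.W z = (u / M.W z - v / M.W z - k) * M.W z := by
      field_simp
    rw [e, abs_mul, abs_of_pos hz]
    have h1 : |u / M.W z - v / M.W z - k| * M.W z < ε / (1 + ∑ z, M.W z) * M.W z :=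
      mul_lt_mul_of_pos_right h hz
    have h2 : ε / (1 + ∑ z, M.W z) * M.W z ≤ ε := by
      rw [div_mul_eq_mul_div, div_le_iff₀ (by linarith)]
      have := hWS z
      nlinarith
    linarith
  obtain ⟨t, hT, ht⟩ := kronecker (ι := S ⊕ Fin 2)
    (Sum.elim (fun z => M.h z / M.W z) ![b / M.W x, d / M.W y])
    (Sum.elim (fun _ => 0) ![(a - M.sm x j - a') / M.W x, 0]) (by
      intro q hq
      simp only [Fintype.sum_sum_type, Sum.elim_inl, Sum.elim_inr, Fin.sum_univ_two, Matrix.cons_val_zero,
        Matrix.cons_val_one] at hq ⊢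
      have hk : q (Sum.inr 0) * m = 0 := by
        refine hg (fun z => m * q (Sum.inl z) + q (Sum.inr 1) * n z) (q (Sum.inr 0) * m) ?_
        have e1 : ∑ z, ((m * q (Sum.inl z) + q (Sum.inr 1) * n z : ℤ) : ℝ) * (M.h z / M.W z)
            = m * ∑ z, (q (Sum.inl z) : ℝ) * (M.h z / M.W z)
              + q (Sum.inr 1) * ∑ z, (n z : ℝ) * (M.h z / M.W z) := by
          rw [Finset.mul_sum, Finset.mul_sum, ← Finset.sum_add_distrib]
          refine Finset.sum_congr rfl fun z _ => ?_
          push_cast
          ring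
        rw [e1, ← hrel]
        push_cast
        linear_combination (m : ℝ) * hq
      have hk0 : q (Sum.inr 0) = 0 := by
        rcases mul_eq_zero.mp hk with h | h
        · exact h
        · exact absurd h hm
      refine ⟨0, ?_⟩
      rw [hk0]
      simp) (ε / (1 + ∑ z, M.W z)) (div_pos hε (by linarith)) T
  obtain ⟨s, hs, hrow⟩ := H t hT (by
      intro z
      obtain ⟨k, hk⟩ := ht (Sum.inl z)
      refine ⟨k, ?_⟩
      have := key z (t * M.h z) 0 k (by
        simp only [Sum.elim_inl] at hk
        rw [zero_div, mul_div_assoc]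
        exact hk)
      simpa using this) a ha0 (by
      obtain ⟨k, hk⟩ := ht (Sum.inr 0)
      refine ⟨-k, ?_⟩
      have := key x (t * b) (a - M.sm x j - a') k (by
        simp only [Sum.elim_inr, Matrix.cons_val_zero] at hk
        rw [mul_div_assoc]
        exact hk)
      rw [abs_sub_comm] at this
      rw [← abs_neg] at this
      push_cast
      have e : a - t * b - -(k : ℝ) * M.W x - (M.sm x j + a')
          = -(t * b - (a - M.sm x j - a') - k * M.W x) := by ring
      rw [e]
      rw [abs_neg, abs_sub_comm] at this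
      rw [abs_neg]
      exact this) c hc0 hc (by
      obtain ⟨k, hk⟩ := ht (Sum.inr 1)
      refine ⟨-k, ?_⟩
      have := key y (t * d) 0 k (by
        simp only [Sum.elim_inr, Matrix.cons_val_one] at hk
        rw [zero_div, mul_div_assoc]
        exact hk)
      have e : c - t * d - ((-k : ℤ) : ℝ) * M.W y - c = -(t * d - 0 - k * M.W y) := by
        push_cast
        ring
      rw [e, abs_neg]
      exact this)
  exact ⟨s, hs, row_line M hs ha hrow⟩

end Pool.Agent.Lib.H25R
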