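/-
CHUNK H25R-Indep (independent pairs see each other).

PROOF. T = {x | Ph x and Pv x}, Ph x: for all a b c d in the ranges (0 <= a < w x, 0 <= b < h x, 0 < c <= w y, 0 < d <= h y) Indep2 M x b y d -> Lit;
Pv x: same with Indep2 M.swap x a y c. hT (Trans) with:
 y in T: (0) a < c, Indep2 M.swap y a y c: V-move (move_free for M.swap, lit_swap, j = 0) from (y,a,b') to (y,c,d') with b' = h/3, d' = 2h/3:
   Line.here with s = (c - a)/(d' - b'). Ph y: indep_exists for M.swap, a' in (0, w/2), c' in (w/2, w); (0); then move_free (j = 0).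
   Pv y: indep_exists for M: b', d'; Ph y; V-move.
 R x in T -> x in T: Ph x: indep_exists for M.swap (R x) y; Pv (R x) (h (R x) = h x); move_free with j = 1. Pv x: b', d' with Indep2 M x b' y d'; Ph x; V-move
   with j = 0.
 U x in T -> x in T: Pv x: indep_exists for M (U x) y: b', d'; Ph (U x) (w (U x) = w x); V-move with j = 1. Ph x: a', c'; Pv x; H-move j = 0.
-/
import Pool.Agent.Lib.H25R.Moves
import Pool.Agent.Lib.H25R.Generic

namespace Pool.Agent.Lib.H25R

open Finset

variable {S : Type}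

theorem trans_swap {M : Surf S} (h : Trans M) : Trans M.swap :=
  fun T hT hR hU => h T hT hU hR

/-- the vertical move -/
private theorem vmove (M : Surf S) [Fintype S] {x y : S} {a c : ℝ} (hI : Indep2 M.swap x a y c) (j : ℕ) {b' d' : ℝ}
    (hb' : 0 ≤ b') (hL : Lit M ((M.U ^ j) x) a b' y c d') {b d : ℝ} (hb0 : 0 ≤ b) (hb : b < M.h x) (hd0 : 0 < d)
    (hd : d ≤ M.h y) : Lit M x a b y c d :=
  (lit_swap M).1 (move_free M.swap hI j hb' ((lit_swap M).2 hL) hb0 hb hd0 hd)

theorem lit_indep (M : Surf S) [Fintype S] (hT : Trans M) {x y : S} {a b c d : ℝ} (hI : Indep2 M x b y d)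
    (ha0 : 0 ≤ a) (ha : a < M.w x) (hb0 : 0 ≤ b) (hb : b < M.h x) (hc0 : 0 < c) (hc : c ≤ M.w y) (hd0 : 0 < d)
    (hd : d ≤ M.h y) : Lit M x a b y c d := by
  have key : ∀ z : S, z ∈ {x : S |
      (∀ a b c d : ℝ, 0 ≤ a → a < M.w x → 0 ≤ b → b < M.h x → 0 < c → c ≤ M.w y → 0 < d → d ≤ M.h y →
        Indep2 M x b y d → Lit M x a b y c d) ∧
      (∀ a b c d : ℝ, 0 ≤ a → a < M.w x → 0 ≤ b → b < M.h x → 0 < c → c ≤ M.w y → 0 < d → d ≤ M.h y →
        Indep2 M.swap x a y c → Lit M x a b y c d)} := by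
    apply hT
    · refine ⟨y, ?_⟩
      have hw := M.w_pos y
      have hh := M.h_pos y
      have h0 : ∀ a b c d : ℝ, 0 ≤ a → a < c → 0 ≤ b → b < M.h y → c ≤ M.w y → 0 < d → d ≤ M.h y →
          Indep2 M.swap y a y c → Lit M y a b y c d := by
        intro a b c d ha hac hb hbh hc hd hdh hI
        refine vmove M hI 0 (b' := M.h y / 3) (d' := 2 * M.h y / 3) (by positivity) ?_ hb hbh hd hdh
        refine ⟨(c - a) / (M.h y / 3), div_pos (by linarith) (by positivity), ?_⟩
        refine Line.here _ _ _ _ _ (by linarith) ?_ (by simpa using hc) ?_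
        · have e : (c - a) / (M.h y / 3) * (2 * M.h y / 3 - M.h y / 3) = c - a := by
            have h3 : M.h y / 3 ≠ 0 := by positivity
            have : 2 * M.h y / 3 - M.h y / 3 = M.h y / 3 := by ring
            rw [this, div_mul_cancel₀ _ h3]
          linarith
        · simp only [pow_zero, Equiv.Perm.coe_one, id_eq]
          linarith
      have hPh : ∀ a b c d : ℝ, 0 ≤ a → a < M.w y → 0 ≤ b → b < M.h y → 0 < c → c ≤ M.w y → 0 < d → d ≤ M.h y →
          Indep2 M y b y d → Lit M y a b y c d := by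
        intro a b c d ha haw hb hbh hc hcw hd hdh hI
        obtain ⟨a', c', h1, h2, h3, h4, h5⟩ := indep_exists M.swap y y (p := 0) (q := M.w y / 2) (p' := M.w y / 2)
          (q' := M.w y) (by linarith) (by linarith)
        refine move_free M hI 0 (a' := a') (c' := c') h1.le ?_ ha haw hc hcw
        simpa using h0 a' b c' d h1.le (by linarith) hb hbh h4.le hd hdh h5
      refine ⟨hPh, ?_⟩
      intro a b c d ha haw hb hbh hc hcw hd hdh hI
      obtain ⟨b', d', h1, h2, h3, h4, h5⟩ := indep_exists M y y (p := 0) (q := M.h y) (p' := 0)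
        (q' := M.h y) hh hh
      refine vmove M hI 0 (b' := b') (d' := d') h1.le ?_ hb hbh hd hdh
      simpa using hPh a b' c d' ha haw h1.le h2 hc hcw h3 h4.le h5
    · intro x hx
      obtain ⟨-, hv⟩ := hx
      have hPh : ∀ a b c d : ℝ, 0 ≤ a → a < M.w x → 0 ≤ b → b < M.h x → 0 < c → c ≤ M.w y → 0 < d → d ≤ M.h y →
          Indep2 M x b y d → Lit M x a b y c d := by
        intro a b c d ha haw hb hbh hc hcw hd hdh hI
        obtain ⟨a', c', h1, h2, h3, h4, h5⟩ := indep_exists M.swap (M.R x) y (p := 0) (q := M.w (M.R x)) (p' := 0)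
          (q' := M.w y) (M.w_pos _) (M.w_pos _)
        refine move_free M hI 1 (a' := a') (c' := c') h1.le ?_ ha haw hc hcw
        have := hv a' b c' d h1.le h2 hb (by rw [M.hR]; exact hbh) h3 h4.le hd hdh h5
        simpa using this
      refine ⟨hPh, ?_⟩
      intro a b c d ha haw hb hbh hc hcw hd hdh hI
      obtain ⟨b', d', h1, h2, h3, h4, h5⟩ := indep_exists M x y (p := 0) (q := M.h x) (p' := 0)
        (q' := M.h y) (M.h_pos _) (M.h_pos _)
      refine vmove M hI 0 (b' := b') (d' := d') h1.le ?_ hb hbh hd hdh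
      simpa using hPh a b' c d' ha haw h1.le h2 hc hcw h3 h4.le h5
    · intro x hx
      obtain ⟨hp, -⟩ := hx
      have hPv : ∀ a b c d : ℝ, 0 ≤ a → a < M.w x → 0 ≤ b → b < M.h x → 0 < c → c ≤ M.w y → 0 < d → d ≤ M.h y →
          Indep2 M.swap x a y c → Lit M x a b y c d := by
        intro a b c d ha haw hb hbh hc hcw hd hdh hI
        obtain ⟨b', d', h1, h2, h3, h4, h5⟩ := indep_exists M (M.U x) y (p := 0) (q := M.h (M.U x)) (p' := 0)
          (q' := M.h y) (M.h_pos _) (M.h_pos _)
        refine vmove M hI 1 (b' := b') (d' := d') h1.le ?_ hb hbh hd hdh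
        have := hp a b' c d' ha (by rw [M.wU]; exact haw) h1.le h2 hc hcw h3 h4.le h5
        simpa using this
      refine ⟨?_, hPv⟩
      intro a b c d ha haw hb hbh hc hcw hd hdh hI
      obtain ⟨a', c', h1, h2, h3, h4, h5⟩ := indep_exists M.swap x y (p := 0) (q := M.w x) (p' := 0)
        (q' := M.w y) (M.w_pos _) (M.w_pos _)
      refine move_free M hI 0 (a' := a') (c' := c') h1.le ?_ ha haw hc hcw
      simpa using hPv a' b c' d h1.le h2 hb hbh h3 h4.le hd hdh h5
  exact (key x).1 a b c d ha0 ha hb0 hb hc0 hc hd0 hd hI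

end Pool.Agent.Lib.H25R
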