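/-
CHUNK H25R-Dep (dependent pairs with l <> 0: the point or its mirror image is seen).

PROOF. W' = W y, Wv = M.swap.W. For z in {y, y'} with c_z = c resp. w y - c consider A_z(u) = Indep2 M.swap x (a - m W x u) z (c_z - l W' u), u in an
interval (p,q) with p = 0 or q = 0 (or around 0), so small that 0 < a - m W u < w x and 0 < c_z - l W' u <= w z (for c_z = w choose the
sign of u so that c_z decreases). If some A_z(u): lit_indep for M.swap (trans_swap, lit_swap) gives Lit M x (a - ..) b z (c_z - ..) d and move_dep gives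
Lit M x a b z c_z d. If A_z(u) fails for all u in the interval: uncount (index (n,k,k')) gives one relation for two different u's, so
  k m W/Wv x + k' l W'/Wv z = 0 and sum n (w/Wv) + k a/Wv x + k' c_z/Wv z = 0, (k,k') <> 0, hence k <> 0 and k' <> 0.
c = w y: the relation with w y / Wv y (one of the w/Wv) contradicts Gen M.swap x a (k = 0). c < w y: the relations (n,k,k') for y and (n2,k2,k2')
for y' : k k2' = k2 k' (both orthogonal to the same nonzero vector); k2' times the first + k' times the second, c + (w - c) = w: Gen gives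
k k2' + k2 k' = 0, so k k2' = 0: contradiction.
-/
import Pool.Agent.Lib.H25R.Indep

namespace Pool.Agent.Lib.H25R

open Finset

variable {S : Type}

private theorem Dep_single [Fintype S] (f : S → ℝ) (n : S → ℤ) (y : S) (k : ℤ) :
    ∃ n' : S → ℤ, ∑ s, (n' s : ℝ) * f s = (∑ s, (n s : ℝ) * f s) + k * f y := by
  classical
  refine ⟨fun s => n s + if s = y then k else 0, ?_⟩
  have h : ∀ s, ((n s + (if s = y then k else 0) : ℤ) : ℝ) * f s
      = (n s : ℝ) * f s + (if s = y then (k : ℝ) * f s else 0) := by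
    intro s
    by_cases hs : s = y
    · rw [if_pos hs, if_pos hs]; push_cast; ring
    · rw [if_neg hs, if_neg hs]; push_cast; ring
  rw [Finset.sum_congr rfl (fun s _ => h s), Finset.sum_add_distrib]
  congr 1
  rw [Finset.sum_ite_eq' Finset.univ y (fun s => (k : ℝ) * f s)]
  simp

private theorem Dep_comb [Fintype S] (f : S → ℝ) (n1 n2 : S → ℤ) (k1 k2 : ℤ) :
    ∑ s, ((k1 * n1 s + k2 * n2 s : ℤ) : ℝ) * f s
      = k1 * (∑ s, (n1 s : ℝ) * f s) + k2 * (∑ s, (n2 s : ℝ) * f s) := by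
  rw [Finset.mul_sum, Finset.mul_sum, ← Finset.sum_add_distrib]
  apply Finset.sum_congr rfl
  intro s _
  push_cast
  ring

private theorem Dep_use (M : Surf S) [Fintype S] (hT : Trans M) {x z : S} {a b c d : ℝ} (hgb : Gen M x b)
    (m l : ℤ) (hm : m ≠ 0) (n : S → ℤ)
    (hrel : m * (d / M.W z) = (∑ z, (n z : ℝ) * (M.h z / M.W z)) + l * (b / M.W x))
    (ha0 : 0 ≤ a) (ha : a < M.w x) (hb0 : 0 ≤ b) (hb : b < M.h x) (hc0 : 0 < c) (hc : c ≤ M.w z)
    (hd0 : 0 < d) (hd : d ≤ M.h z) (u : ℝ) (hu1 : 0 ≤ a - m * M.W x * u) (hu2 : a - m * M.W x * u < M.w x)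
    (hu3 : 0 < c - l * M.W z * u) (hu4 : c - l * M.W z * u ≤ M.w z)
    (hI : Indep2 M.swap x (a - m * M.W x * u) z (c - l * M.W z * u)) : Lit M x a b z c d := by
  have h1 : Lit M.swap x b (a - m * M.W x * u) z d (c - l * M.W z * u) :=
    lit_indep M.swap (trans_swap hT) hI hb0 hb hu1 hu2 hd0 hd hu3 hu4
  exact move_dep M hgb m l hm n hrel u hu1 ((lit_swap M).1 h1) ha0 ha hc0 hc

private theorem Dep_rel (M : Surf S) [Fintype S] {x z : S} {a c : ℝ} (m l : ℤ) (hm : m ≠ 0) (hl : l ≠ 0)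
    {p q : ℝ} (hpq : p < q)
    (hf : ∀ u, p < u → u < q → ¬ Indep2 M.swap x (a - m * M.W x * u) z (c - l * M.W z * u)) :
    ∃ (n : S → ℤ) (k k' : ℤ), k ≠ 0 ∧ k' ≠ 0 ∧
      (k : ℝ) * m * (M.W x / M.swap.W x) + k' * l * (M.W z / M.swap.W z) = 0 ∧
      (∑ s, (n s : ℝ) * (M.swap.h s / M.swap.W s)) + k * (a / M.swap.W x) + k' * (c / M.swap.W z) = 0 := by
  have hWx := W_pos M x
  have hWz := W_pos M z
  have hVx := W_pos M.swap x
  have hVz := W_pos M.swap z
  have hc := uncount (ι := (S → ℤ) × ℤ × ℤ)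
    (fun i u => ¬ (i.2.1 = 0 ∧ i.2.2 = 0) ∧ (∑ s, (i.1 s : ℝ) * (M.swap.h s / M.swap.W s))
      + i.2.1 * ((a - m * M.W x * u) / M.swap.W x) + i.2.2 * ((c - l * M.W z * u) / M.swap.W z) = 0) hpq
    (by
      intro u hu1 hu2
      have h := hf u hu1 hu2
      unfold Indep2 at h
      by_contra hcon
      apply h
      intro n k l' hs
      by_contra hkl
      exact hcon ⟨(n, k, l'), hkl, hs⟩)
  obtain ⟨⟨n, k, k'⟩, u, v, huv, _, _, _, _, ⟨h1, h2⟩, ⟨_, h3⟩⟩ := hc
  simp only at h1 h2 h3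
  have hE1 : (k : ℝ) * m * (M.W x / M.swap.W x) + k' * l * (M.W z / M.swap.W z) = 0 := by
    have h4 : ((k : ℝ) * m * (M.W x / M.swap.W x) + k' * l * (M.W z / M.swap.W z)) * (u - v) = 0 := by
      have e1 : (a - m * M.W x * u) / M.swap.W x = a / M.swap.W x - m * (M.W x / M.swap.W x) * u := by ring
      have e2 : (c - l * M.W z * u) / M.swap.W z = c / M.swap.W z - l * (M.W z / M.swap.W z) * u := by ring
      have e3 : (a - m * M.W x * v) / M.swap.W x = a / M.swap.W x - m * (M.W x / M.swap.W x) * v := by ring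
      have e4 : (c - l * M.W z * v) / M.swap.W z = c / M.swap.W z - l * (M.W z / M.swap.W z) * v := by ring
      rw [e1, e2] at h2
      rw [e3, e4] at h3
      linear_combination h3 - h2
    rcases mul_eq_zero.1 h4 with h5 | h5
    · exact h5
    · exact absurd (sub_eq_zero.1 h5) huv
  have hE2 : (∑ s, (n s : ℝ) * (M.swap.h s / M.swap.W s)) + k * (a / M.swap.W x)
      + k' * (c / M.swap.W z) = 0 := by
    have e1 : (a - m * M.W x * u) / M.swap.W x = a / M.swap.W x - m * (M.W x / M.swap.W x) * u := by ring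
    have e2 : (c - l * M.W z * u) / M.swap.W z = c / M.swap.W z - l * (M.W z / M.swap.W z) * u := by ring
    rw [e1, e2] at h2
    linear_combination h2 + u * hE1
  have hp : 0 < M.W x / M.swap.W x := div_pos hWx hVx
  have hq : 0 < M.W z / M.swap.W z := div_pos hWz hVz
  have hm' : (m : ℝ) ≠ 0 := by exact_mod_cast hm
  have hl' : (l : ℝ) ≠ 0 := by exact_mod_cast hl
  have hk : k ≠ 0 := by
    intro hk
    apply h1
    refine ⟨hk, ?_⟩
    rw [hk] at hE1
    have h5 : (k' : ℝ) * l * (M.W z / M.swap.W z) = 0 := by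
      have := hE1
      simpa using this
    have h6 : (k' : ℝ) = 0 := by
      rcases mul_eq_zero.1 h5 with h7 | h7
      · rcases mul_eq_zero.1 h7 with h8 | h8
        · exact h8
        · exact absurd h8 hl'
      · exact absurd h7 hq.ne'
    exact_mod_cast h6
  have hk' : k' ≠ 0 := by
    intro hk2
    apply h1
    refine ⟨?_, hk2⟩
    rw [hk2] at hE1
    have h5 : (k : ℝ) * m * (M.W x / M.swap.W x) = 0 := by
      have := hE1
      simpa using this
    have h6 : (k : ℝ) = 0 := by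
      rcases mul_eq_zero.1 h5 with h7 | h7
      · rcases mul_eq_zero.1 h7 with h8 | h8
        · exact h8
        · exact absurd h8 hm'
      · exact absurd h7 hp.ne'
    exact_mod_cast h6
  exact ⟨n, k, k', hk, hk', hE1, hE2⟩

private theorem Dep_eps (A B δ : ℝ) (hδ : 0 < δ) :
    ∃ ε : ℝ, 0 < ε ∧ ∀ u : ℝ, -ε < u → u < ε → |A * u| < δ ∧ |B * u| < δ := by
  have hpos : 0 < |A| + |B| + 1 := by positivity
  refine ⟨δ / (|A| + |B| + 1), div_pos hδ hpos, ?_⟩
  intro u h1 h2
  have h3 : |u| < δ / (|A| + |B| + 1) := abs_lt.2 ⟨h1, h2⟩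
  have h4 : |u| * (|A| + |B| + 1) < δ := by
    rwa [lt_div_iff₀ hpos] at h3
  have h5 : 0 ≤ |u| := abs_nonneg u
  have h6 : 0 ≤ |A| := abs_nonneg A
  have h7 : 0 ≤ |B| := abs_nonneg B
  constructor
  · rw [abs_mul]
    nlinarith
  · rw [abs_mul]
    nlinarith

theorem lit_dep (M : Surf S) [Fintype S] (hT : Trans M) {x y y' : S} {a b c d : ℝ} (hgb : Gen M x b)
    (hga : Gen M.swap x a) (m l : ℤ) (hm : m ≠ 0) (hl : l ≠ 0) (n : S → ℤ)
    (hrel : m * (d / M.W y) = (∑ z, (n z : ℝ) * (M.h z / M.W z)) + l * (b / M.W x))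
    (ha0 : 0 < a) (ha : a < M.w x) (hb0 : 0 ≤ b) (hb : b < M.h x) (hc0 : 0 < c) (hc : c ≤ M.w y) (hd0 : 0 < d)
    (hd : d ≤ M.h y) (hW : M.W y' = M.W y) (hWv : M.swap.W y' = M.swap.W y) (hw : M.w y' = M.w y)
    (hh : M.h y' = M.h y) : Lit M x a b y c d ∨ (c < M.w y ∧ Lit M x a b y' (M.w y - c) d) := by
  have hWx := W_pos M x
  have hWy := W_pos M y
  have hVx := W_pos M.swap x
  have hVy := W_pos M.swap y
  have hm' : (m : ℝ) ≠ 0 := by exact_mod_cast hm
  have hl' : (l : ℝ) ≠ 0 := by exact_mod_cast hl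
  rcases lt_or_eq_of_le hc with hcy | hcy
  · -- `c < w y`
    have hδ : 0 < min (min a (M.w x - a)) (min c (M.w y - c)) := by
      apply lt_min
      · exact lt_min ha0 (by linarith)
      · exact lt_min hc0 (by linarith)
    obtain ⟨ε, hε, hb2⟩ := Dep_eps (m * M.W x) (l * M.W y) _ hδ
    have hbd : ∀ u, -ε < u → u < ε → |m * M.W x * u| < a ∧ |m * M.W x * u| < M.w x - a ∧
        |l * M.W y * u| < c ∧ |l * M.W y * u| < M.w y - c := by
      intro u h1 h2
      obtain ⟨h3, h4⟩ := hb2 u h1 h2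
      refine ⟨lt_of_lt_of_le h3 (le_trans (min_le_left _ _) (min_le_left _ _)),
        lt_of_lt_of_le h3 (le_trans (min_le_left _ _) (min_le_right _ _)),
        lt_of_lt_of_le h4 (le_trans (min_le_right _ _) (min_le_left _ _)),
        lt_of_lt_of_le h4 (le_trans (min_le_right _ _) (min_le_right _ _))⟩
    by_cases hA : ∃ u, -ε < u ∧ u < ε ∧ Indep2 M.swap x (a - m * M.W x * u) y (c - l * M.W y * u)
    · obtain ⟨u, h1, h2, hI⟩ := hA
      obtain ⟨e1, e2, e3, e4⟩ := hbd u h1 h2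
      rw [abs_lt] at e1 e2 e3 e4
      left
      exact Dep_use M hT hgb m l hm n hrel ha0.le ha hb0 hb hc0 hc hd0 hd u (by linarith [e1.2])
        (by linarith [e2.1]) (by linarith [e3.2]) (by linarith [e4.1]) hI
    by_cases hB : ∃ u, -ε < u ∧ u < ε ∧
        Indep2 M.swap x (a - m * M.W x * u) y' ((M.w y - c) - l * M.W y' * u)
    · obtain ⟨u, h1, h2, hI⟩ := hB
      obtain ⟨e1, e2, e3, e4⟩ := hbd u h1 h2
      rw [abs_lt] at e1 e2 e3 e4
      right
      refine ⟨hcy, ?_⟩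
      refine Dep_use M hT hgb m l hm n (by rw [hW]; exact hrel) ha0.le ha hb0 hb (by linarith)
        (by rw [hw]; linarith) hd0 (by rw [hh]; exact hd) u (by linarith [e1.2])
        (by linarith [e2.1]) (by rw [hW]; linarith [e4.2]) (by rw [hW, hw]; linarith [e3.1]) hI
    exfalso
    obtain ⟨n1, k1, k1', hk1, hk1', hE1, hE2⟩ := Dep_rel M (x := x) (z := y) (a := a) (c := c) m l hm hl
      (p := -ε) (q := ε) (by linarith) (fun u h1 h2 hI => hA ⟨u, h1, h2, hI⟩)
    obtain ⟨n2, k2, k2', hk2, hk2', hF1, hF2⟩ := Dep_rel M (x := x) (z := y') (a := a) (c := M.w y - c) m l hm hl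
      (p := -ε) (q := ε) (by linarith) (fun u h1 h2 hI => hB ⟨u, h1, h2, hI⟩)
    rw [hW, hWv] at hF1
    rw [hWv] at hF2
    have hp : 0 < M.W x / M.swap.W x := div_pos hWx hVx
    have hq : 0 < M.W y / M.swap.W y := div_pos hWy hVy
    have hK : (k1 : ℝ) * k2' = k2 * k1' := by
      have h5 : ((k1 : ℝ) * k2' - k2 * k1') * (m * (M.W x / M.swap.W x)) = 0 := by
        linear_combination (k2' : ℝ) * hE1 - (k1' : ℝ) * hF1
      rcases mul_eq_zero.1 h5 with h6 | h6
      · linarith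
      · exfalso
        rcases mul_eq_zero.1 h6 with h7 | h7
        · exact hm' h7
        · exact hp.ne' h7
    obtain ⟨n3, hn3⟩ := Dep_single (fun s => M.swap.h s / M.swap.W s)
      (fun s => k2' * n1 s + k1' * n2 s) y (k1' * k2')
    have hg := hga n3 (k1 * k2' + k2 * k1')
    have hsum : (∑ z, (n3 z : ℝ) * (M.swap.h z / M.swap.W z))
        + ((k1 * k2' + k2 * k1' : ℤ) : ℝ) * (a / M.swap.W x) = 0 := by
      rw [hn3, Dep_comb]
      have hhy : M.swap.h y = M.w y := rfl
      simp only [hhy]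
      push_cast
      have e1 : (M.w y - c) / M.swap.W y = M.w y / M.swap.W y - c / M.swap.W y := by ring
      rw [e1] at hF2
      linear_combination (k2' : ℝ) * hE2 + (k1' : ℝ) * hF2
    have h8 := hg hsum
    have h9 : (k1 : ℝ) * k2' + k2 * k1' = 0 := by exact_mod_cast h8
    have h10 : (k1 : ℝ) * k2' = 0 := by linarith
    rcases mul_eq_zero.1 h10 with h11 | h11
    · exact hk1 (by exact_mod_cast h11)
    · exact hk2' (by exact_mod_cast h11)
  · -- `c = w y`
    left
    have hδ : 0 < min (min a (M.w x - a)) c := by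
      apply lt_min
      · exact lt_min ha0 (by linarith)
      · exact hc0
    obtain ⟨ε, hε, hb2⟩ := Dep_eps (m * M.W x) (l * M.W y) _ hδ
    have hbd : ∀ u, -ε < u → u < ε → |m * M.W x * u| < a ∧ |m * M.W x * u| < M.w x - a ∧
        |l * M.W y * u| < c := by
      intro u h1 h2
      obtain ⟨h3, h4⟩ := hb2 u h1 h2
      refine ⟨lt_of_lt_of_le h3 (le_trans (min_le_left _ _) (min_le_left _ _)),
        lt_of_lt_of_le h3 (le_trans (min_le_left _ _) (min_le_right _ _)),
        lt_of_lt_of_le h4 (min_le_right _ _)⟩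
    -- the half interval
    obtain ⟨p, q, hpq, hint⟩ : ∃ p q : ℝ, p < q ∧ ∀ u, p < u → u < q →
        -ε < u ∧ u < ε ∧ 0 ≤ (l : ℝ) * M.W y * u := by
      rcases lt_or_gt_of_ne hl' with hneg | hpos
      · refine ⟨-ε, 0, by linarith, ?_⟩
        intro u h1 h2
        refine ⟨h1, by linarith, ?_⟩
        have h3 : (l : ℝ) * M.W y ≤ 0 := mul_nonpos_of_nonpos_of_nonneg hneg.le hWy.le
        exact mul_nonneg_of_nonpos_of_nonpos h3 h2.le
      · refine ⟨0, ε, hε, ?_⟩
        intro u h1 h2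
        refine ⟨by linarith, h2, ?_⟩
        have h3 : 0 ≤ (l : ℝ) * M.W y := mul_nonneg hpos.le hWy.le
        exact mul_nonneg h3 h1.le
    by_cases hA : ∃ u, p < u ∧ u < q ∧ Indep2 M.swap x (a - m * M.W x * u) y (c - l * M.W y * u)
    · obtain ⟨u, h1, h2, hI⟩ := hA
      obtain ⟨i1, i2, i3⟩ := hint u h1 h2
      obtain ⟨e1, e2, e3⟩ := hbd u i1 i2
      rw [abs_lt] at e1 e2 e3
      exact Dep_use M hT hgb m l hm n hrel ha0.le ha hb0 hb hc0 hc hd0 hd u (by linarith [e1.2])
        (by linarith [e2.1]) (by linarith [e3.2]) (by linarith) hI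
    exfalso
    obtain ⟨n1, k1, k1', hk1, hk1', hE1, hE2⟩ := Dep_rel M (x := x) (z := y) (a := a) (c := c) m l hm hl
      hpq (fun u h1 h2 hI => hA ⟨u, h1, h2, hI⟩)
    obtain ⟨n3, hn3⟩ := Dep_single (fun s => M.swap.h s / M.swap.W s) n1 y k1'
    have hsum : (∑ z, (n3 z : ℝ) * (M.swap.h z / M.swap.W z)) + (k1 : ℝ) * (a / M.swap.W x) = 0 := by
      rw [hn3]
      have hhy : M.swap.h y = M.w y := rfl
      simp only [hhy]
      rw [hcy] at hE2
      linear_combination hE2
    exact hk1 (hga n3 k1 hsum)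

end Pool.Agent.Lib.H25R
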