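/-
CHUNK H25R-Rat (rational end points, corners for instance: the end point stays, the start moves).

PROOF. T = {x | for all a b with the conditions: Lit}. y in T: a' in (0, c) with Gen M.swap y a' (gen_exists), b' in (0, d): Line.here from (a',b') to
(c,d), s = (c - a')/(d - b'); then V-move move_fix (for M.swap, j = 0, needs Gen M.swap y a') to (a', b), then move_fix (Gen M y b) to (a,b).
R x in T -> x in T: a' in (0, w (R x)) with Gen M.swap (R x) a'; gen_R; move_fix with j = 1. U x in T -> x in T: the same for M.swap.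
-/
import Pool.Agent.Lib.H25R.Moves
import Pool.Agent.Lib.H25R.Generic

namespace Pool.Agent.Lib.H25R

open Finset

variable {S : Type}

theorem lit_rat (M : Surf S) [Fintype S] (hT : Trans M) {y : S} {c d : ℝ} (hc0 : 0 < c) (hc : c ≤ M.w y) (hd0 : 0 < d)
    (hd : d ≤ M.h y) (m : ℤ) (hm : m ≠ 0) (n : S → ℤ) (hrel : m * (d / M.W y) = ∑ z, (n z : ℝ) * (M.h z / M.W z))
    (m' : ℤ) (hm' : m' ≠ 0) (n' : S → ℤ)
    (hrel' : m' * (c / M.swap.W y) = ∑ z, (n' z : ℝ) * (M.w z / M.swap.W z)) {x : S} {a b : ℝ} (hgb : Gen M x b)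
    (hga : Gen M.swap x a) (ha0 : 0 ≤ a) (ha : a < M.w x) (hb0 : 0 ≤ b) (hb : b < M.h x) : Lit M x a b y c d := by
  have key : ∀ x, x ∈ {x : S | ∀ a b : ℝ, Gen M x b → Gen M.swap x a → 0 ≤ a → a < M.w x → 0 ≤ b → b < M.h x →
      Lit M x a b y c d} := by
    apply hT
    · refine ⟨y, ?_⟩
      intro a b hgb hga ha0 ha hb0 hb
      obtain ⟨a', ha'0, ha'c, hga'⟩ := gen_exists M.swap y hc0
      have h1 : Lit M y a' (d / 2) y c d := by
        refine ⟨(c - a') / (d - d / 2), div_pos (by linarith) (by linarith), ?_⟩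
        refine Line.here y a' (d / 2) c d (by linarith) ?_ hc hd
        have : d - d / 2 ≠ 0 := by
          intro h0
          linarith
        field_simp
        ring
      have h2 : Lit M.swap ((M.swap.R ^ 0) y) (d / 2) a' y d c := by
        rw [pow_zero]
        exact (lit_swap M).2 h1
      have h3 : Lit M.swap y b a' y d c :=
        move_fix M.swap hga' m' hm' n' hrel' 0 (by linarith) h2 hb0 hb hd0 hd
      have h4 : Lit M ((M.R ^ 0) y) a' b y c d := by
        rw [pow_zero]
        exact (lit_swap M).1 h3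
      exact move_fix M hgb m hm n hrel 0 ha'0.le h4 ha0 ha hc0 hc
    · intro x hx a b hgb hga ha0 ha hb0 hb
      obtain ⟨a', ha'0, ha'w, hga'⟩ := gen_exists M.swap (M.R x) (M.w_pos (M.R x))
      have h1 : Lit M (M.R x) a' b y c d :=
        hx a' b ((gen_R M).2 hgb) hga' ha'0.le ha'w hb0 (by rw [M.hR]; exact hb)
      have h2 : Lit M ((M.R ^ 1) x) a' b y c d := by
        rw [pow_one]
        exact h1
      exact move_fix M hgb m hm n hrel 1 ha'0.le h2 ha0 ha hc0 hc
    · intro x hx a b hgb hga ha0 ha hb0 hb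
      obtain ⟨b', hb'0, hb'h, hgb'⟩ := gen_exists M (M.U x) (M.h_pos (M.U x))
      have h1 : Lit M (M.U x) a b' y c d :=
        hx a b' hgb' ((gen_R M.swap).2 hga) ha0 (by rw [M.wU]; exact ha) hb'0.le hb'h
      have h2 : Lit M.swap ((M.swap.R ^ 1) x) b' a y d c := by
        rw [pow_one]
        exact (lit_swap M).2 h1
      have h3 : Lit M.swap x b a y d c :=
        move_fix M.swap hga m' hm' n' hrel' 1 hb'0.le h2 hb0 hb hd0 hd
      exact (lit_swap M).1 h3
  exact key x a b hgb hga ha0 ha hb0 hb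

end Pool.Agent.Lib.H25R
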