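/-
CHUNK H25R-AllLit (the abstract theorem).

PROOF. If Indep2 M x b y d: lit_indep. If not: (n,k,l) with the relation and not (k = 0 and l = 0); l = 0 contradicts Gen M x b; so with m := -l:
m (d/W y) = sum + k (b/W x). k <> 0: lit_dep with y' = mh y (W_mirror for mh; M.swap.W (mh y) = M.swap.W y by W_comm for M.swap).
The same for M.swap (lit_swap): Indep2 M.swap x a y c, or a relation with k' <> 0: lit_dep for M.swap with y' = mv y (third
alternative). Both k = 0 and k' = 0: lit_rat.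
-/
import Pool.Agent.Lib.H25R.Dep
import Pool.Agent.Lib.H25R.Rat

namespace Pool.Agent.Lib.H25R

open Finset

variable {S : Type}

private theorem AllLit_rel (M : Surf S) [Fintype S] {x y : S} {b d : ℝ} (hgb : Gen M x b)
    (hI : ¬ Indep2 M x b y d) : ∃ (m k : ℤ) (n : S → ℤ), m ≠ 0 ∧
      m * (d / M.W y) = (∑ z, (n z : ℝ) * (M.h z / M.W z)) + k * (b / M.W x) := by
  unfold Indep2 at hI
  push Not at hI
  obtain ⟨n, k, l, hs, hkl⟩ := hI
  have hl : l ≠ 0 := by
    intro hl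
    have hk : k = 0 := by
      apply hgb n k
      rw [hl] at hs
      simpa using hs
    exact hkl hk hl
  refine ⟨-l, k, n, neg_ne_zero.2 hl, ?_⟩
  push_cast
  linear_combination -hs

theorem all_lit (M : Surf S) [Fintype S] (hT : Trans M) (mh mv : S → S)
    (mh1 : ∀ x, M.R (mh (M.R x)) = mh x) (mh2 : ∀ x, M.U (mh x) = mh (M.U x)) (mh3 : ∀ x, M.w (mh x) = M.w x)
    (mh4 : ∀ x, M.h (mh x) = M.h x)
    (mv1 : ∀ x, M.U (mv (M.U x)) = mv x) (mv2 : ∀ x, M.R (mv x) = mv (M.R x)) (mv3 : ∀ x, M.w (mv x) = M.w x)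
    (mv4 : ∀ x, M.h (mv x) = M.h x) {x : S} {a b : ℝ} (hgb : Gen M x b) (hga : Gen M.swap x a)
    (ha0 : 0 < a) (ha : a < M.w x) (hb0 : 0 < b) (hb : b < M.h x)
    (y : S) (c d : ℝ) (hc0 : 0 < c) (hc : c ≤ M.w y) (hd0 : 0 < d) (hd : d ≤ M.h y) :
    Lit M x a b y c d ∨ (c < M.w y ∧ Lit M x a b (mh y) (M.w y - c) d) ∨
      (d < M.h y ∧ Lit M x a b (mv y) c (M.h y - d)) := by
  by_cases hI : Indep2 M x b y d
  · left
    exact lit_indep M hT hI ha0.le ha hb0.le hb hc0 hc hd0 hd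
  obtain ⟨m, k, n, hm, hrel⟩ := AllLit_rel M hgb hI
  by_cases hk : k = 0
  · by_cases hI' : Indep2 M.swap x a y c
    · left
      exact (lit_swap M).1 (lit_indep M.swap (trans_swap hT) hI' hb0.le hb ha0.le ha hd0 hd hc0 hc)
    obtain ⟨m', k', n', hm', hrel'⟩ := AllLit_rel M.swap hga hI'
    by_cases hk' : k' = 0
    · left
      refine lit_rat M hT hc0 hc hd0 hd m hm n ?_ m' hm' n' ?_ hgb hga ha0.le ha hb0.le hb
      · rw [hrel, hk]
        simp
      · rw [hrel', hk']
        simp [Surf.swap]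
    · have h := lit_dep M.swap (trans_swap hT) (y' := mv y) hga hgb m' k' hm' hk' n' hrel' hb0 hb ha0.le ha hd0 hd
        hc0 hc (W_mirror M.swap mv mv1 mv4 y) (W_comm M mv mv2 mv3 y) (mv4 y) (mv3 y)
      rcases h with h | ⟨h1, h2⟩
      · left
        exact (lit_swap M).1 h
      · right
        right
        exact ⟨h1, (lit_swap M).1 h2⟩
  · have h := lit_dep M hT (y' := mh y) hgb hga m k hm hk n hrel ha0 ha hb0.le hb hc0 hc hd0 hd
      (W_mirror M mh mh1 mh3 y) (W_comm M.swap mh mh2 mh4 y) (mh3 y) (mh4 y)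
    rcases h with h | h
    · left
      exact h
    · right
      left
      exact h

end Pool.Agent.Lib.H25R
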