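/-
H25R-Grid: a strictly monotone unbounded sequence X : Z -> R through a given finite set of reals.
-/
import Mathlib

namespace Pool.Agent.Lib.H25R

open Filter

theorem grid_cell {X : ℤ → ℝ} (hm : StrictMono X) (ht : Tendsto X atTop atTop) (hb : Tendsto X atBot atBot) (r : ℝ) :
    ∃ k : ℤ, X k ≤ r ∧ r < X (k + 1) := by
  obtain ⟨k1, hk1⟩ := (hb.eventually (eventually_le_atBot r)).exists
  obtain ⟨k2, hk2⟩ := (ht.eventually (eventually_gt_atTop r)).exists
  -- greatest k with X k ≤ r
  have hbd : ∀ z : ℤ, X z ≤ r → z ≤ k2 := fun z hz => by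
    by_contra h
    push Not at h
    have := hm h
    linarith
  obtain ⟨ub, hub1, hub2⟩ := Int.exists_greatest_of_bdd (P := fun z => X z ≤ r) ⟨k2, hbd⟩ ⟨k1, hk1⟩
  refine ⟨ub, hub1, ?_⟩
  by_contra h
  push Not at h
  have := hub2 _ h
  omega

theorem exists_grid (F : Finset ℝ) :
    ∃ X : ℤ → ℝ, StrictMono X ∧ Tendsto X atTop atTop ∧ Tendsto X atBot atBot ∧ ∀ x ∈ F, ∃ k, X k = x := by
  classical
  induction F using Finset.induction_on with
  | empty =>
    refine ⟨fun k => (k : ℝ), Int.cast_strictMono, tendsto_intCast_atTop_atTop, ?_, by simp⟩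
    exact tendsto_intCast_atBot_iff.2 tendsto_id
  | insert x F hx ih =>
    obtain ⟨X, hm, ht, hb, hF⟩ := ih
    by_cases hxr : ∃ k, X k = x
    · refine ⟨X, hm, ht, hb, fun y hy => ?_⟩
      rcases Finset.mem_insert.1 hy with rfl | h
      · exact hxr
      · exact hF y h
    · obtain ⟨k, hk1, hk2⟩ := grid_cell hm ht hb x
      have hk1' : X k < x := lt_of_le_of_ne hk1 fun h => hxr ⟨k, h⟩
      let X' : ℤ → ℝ := fun j => if j ≤ k then X j else if j = k + 1 then x else X (j - 1)
      have hX'1 : ∀ j, j ≤ k → X' j = X j := fun j hj => by simp [X', hj]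
      have hX'2 : X' (k + 1) = x := by simp [X']
      have hX'3 : ∀ j, k + 2 ≤ j → X' j = X (j - 1) := fun j hj => by
        have h1 : ¬ j ≤ k := by omega
        have h2 : j ≠ k + 1 := by omega
        simp [X', h1, h2]
      refine ⟨X', ?_, ?_, ?_, ?_⟩
      · apply strictMono_int_of_lt_succ
        intro j
        rcases lt_trichotomy j k with h | h | h
        · rw [hX'1 j h.le, hX'1 (j + 1) (by omega)]
          exact hm (by omega)
        · subst h
          rw [hX'1 j le_rfl, hX'2]
          exact hk1'
        · rcases eq_or_lt_of_le (show k + 1 ≤ j by omega) with h2 | h2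
          · rw [← h2, hX'2, hX'3 (k + 1 + 1) (by omega)]
            have : k + 1 + 1 - 1 = k + 1 := by ring
            rw [this]
            exact hk2
          · rw [hX'3 j (by omega), hX'3 (j + 1) (by omega)]
            exact hm (by omega)
      · have h1 : Tendsto (fun j : ℤ => X (j - 1)) atTop atTop :=
          ht.comp (tendsto_atTop_add_const_right _ (-1) tendsto_id)
        refine h1.congr' ?_
        filter_upwards [eventually_ge_atTop (k + 2)] with j hj
        exact (hX'3 j hj).symm
      · refine hb.congr' ?_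
        filter_upwards [eventually_le_atBot k] with j hj
        exact (hX'1 j hj).symm
      · intro y hy
        rcases Finset.mem_insert.1 hy with rfl | h
        · exact ⟨k + 1, hX'2⟩
        · obtain ⟨j, hj⟩ := hF y h
          by_cases hjk : j ≤ k
          · exact ⟨j, by rw [hX'1 j hjk, hj]⟩
          · exact ⟨j + 1, by rw [hX'3 (j + 1) (by omega)]; simpa using hj⟩

end Pool.Agent.Lib.H25R
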