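/-
CHUNK H25R-MoveFree (the three horizontal moves, from hmove and kronecker).

All three: line_row on the given Lit (slope s0), hmove gives eps, T for j; kronecker with the index set S + 2 elements (Option (Option S) or
Sum S (Fin 2)): al = h z / W z, b / W x, d / W y; targets 0, be1, be2; eps' = eps / (1 + max of the W's); T' = max T .. . Then
row_line. Here W z > 0 (W_pos), W x' = W x (W_pow).
 move_free: targets be1 with W x be1 = a - sm x j - a', be2 with W y be2 = c - c': relation condition = Indep2 (k = l = 0).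
 move_dep: targets m u, l u; relation n, k, k' with sum n h/W + k b/W + k' d/W' = 0: multiply by m and insert hrel: Gen gives
   k m + k' l = 0 (use the integer family m n + k' n0), so k m u + k' l u = 0.
 move_fix: targets be1 arbitrary, 0; m times the relation: Gen gives k m = 0, k = 0.
-/
import Pool.Agent.Lib.H25R.RowLine
import Pool.Agent.Lib.H25R.HMove
import Pool.Agent.Lib.H25R.Kron

namespace Pool.Agent.Lib.H25R

open Finset

variable {S : Type}

private theorem mf_aux {w t p q e E B : ℝ} {m : ℤ} (hw : 0 < w) (hB : 0 < B) (hwB : w ≤ B) (hE : e = E / B)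
    (hE0 : 0 < E) (h : |t * (p / w) - q / w - m| < e) : |t * p - q - m * w| < E := by
  have h1 : t * p - q - m * w = (t * (p / w) - q / w - m) * w := by
    field_simp
  rw [h1, abs_mul, abs_of_pos hw]
  calc |t * (p / w) - q / w - m| * w < e * w := mul_lt_mul_of_pos_right h hw
    _ ≤ e * B := by
        apply mul_le_mul_of_nonneg_left hwB
        rw [hE]; positivity
    _ = E := by rw [hE]; field_simp

theorem move_free (M : Surf S) [Fintype S] {x y : S} {b d : ℝ} (hI : Indep2 M x b y d) (j : ℕ) {a' c' : ℝ}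
    (ha' : 0 ≤ a') (hL : Lit M ((M.R ^ j) x) a' b y c' d) {a c : ℝ} (ha0 : 0 ≤ a) (ha : a < M.w x) (hc0 : 0 < c)
    (hc : c ≤ M.w y) : Lit M x a b y c d := by
  obtain ⟨s0, hs0, hl⟩ := hL
  have hr := line_row M hs0 ha' hl
  obtain ⟨ε, hε, T, hT⟩ := hmove M hs0 hr x j rfl
  set B : ℝ := 1 + ∑ z, M.W z with hBdef
  have hsum : 0 ≤ ∑ z, M.W z := Finset.sum_nonneg fun z _ => (W_pos M z).le
  have hB : 0 < B := by rw [hBdef]; linarith
  have hWB : ∀ z, M.W z ≤ B := by
    intro z
    have := Finset.single_le_sum (f := fun z => M.W z) (fun z _ => (W_pos M z).le) (Finset.mem_univ z)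
    rw [hBdef]
    linarith
  obtain ⟨t, htT, ht⟩ := kronecker (ι := S ⊕ Fin 2)
    (Sum.elim (fun z => M.h z / M.W z) ![b / M.W x, d / M.W y])
    (Sum.elim (fun _ => 0) ![(a - M.sm x j - a') / M.W x, (c - c') / M.W y]) (by
      intro n hn
      rw [Fintype.sum_sum_type, Fin.sum_univ_two] at hn ⊢
      simp only [Sum.elim_inl, Sum.elim_inr, Matrix.cons_val_zero, Matrix.cons_val_one] at hn ⊢
      have h2 := hI (fun z => n (Sum.inl z)) (n (Sum.inr 0)) (n (Sum.inr 1)) (by
        rw [← hn]; ring)
      refine ⟨0, ?_⟩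
      rw [h2.1, h2.2]
      simp) (ε / B) (by positivity) T
  obtain ⟨s, hs, hrow⟩ := hT t htT (by
      intro z
      obtain ⟨m, hm⟩ := ht (Sum.inl z)
      simp only [Sum.elim_inl] at hm
      refine ⟨m, ?_⟩
      have := mf_aux (p := M.h z) (q := 0) (m := m) (W_pos M z) hB (hWB z) rfl hε (by simpa using hm)
      simpa using this) a ha0 (by
      obtain ⟨m, hm⟩ := ht (Sum.inr 0)
      simp only [Sum.elim_inr, Matrix.cons_val_zero] at hm
      refine ⟨-m, ?_⟩
      have := mf_aux (W_pos M x) hB (hWB x) rfl hε hm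
      rw [← abs_neg] at this
      convert this using 2
      push_cast
      ring) c hc0 hc (by
      obtain ⟨m, hm⟩ := ht (Sum.inr 1)
      simp only [Sum.elim_inr, Matrix.cons_val_one] at hm
      refine ⟨-m, ?_⟩
      have := mf_aux (W_pos M y) hB (hWB y) rfl hε hm
      rw [← abs_neg] at this
      convert this using 2
      push_cast
      ring)
  exact ⟨s, hs, row_line M hs ha hrow⟩

end Pool.Agent.Lib.H25R
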